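import Pool.Agent.Work.MP_e9b29d_ld.Interface

/-! # Block CHL (helper87): Chebyshev's lower bound -/

set_option autoImplicit false

namespace Pool.LDV

open Finset Filter MeasureTheory Pool.Agent.Work.MP_e9b29d_nt

theorem CHL_theta (y : ℝ) : ∑ p ∈ PY y, Real.log p = Chebyshev.theta y := by
  unfold PY Chebyshev.theta
  apply Finset.sum_congr _ (fun _ _ => rfl)
  ext p
  simp only [Finset.mem_filter, Finset.mem_Icc, Finset.mem_Ioc]
  constructor
  · rintro ⟨⟨h1, h2⟩, h3⟩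
    exact ⟨⟨by omega, h2⟩, h3⟩
  · rintro ⟨⟨h1, h2⟩, h3⟩
    exact ⟨⟨by omega, h2⟩, h3⟩

theorem CHL_ev : ∃ y₀ : ℝ, 3 ≤ y₀ ∧ ∀ y : ℝ, y₀ ≤ y → y / 4 ≤ Chebyshev.theta y := by
  have h1 : Tendsto (fun x : ℝ => Real.log x / x ^ (1 / 4 : ℝ)) atTop (nhds 0) := by
    have := isLittleO_log_rpow_atTop (r := 1 / 4) (by norm_num)
    exact this.tendsto_div_nhds_zero
  have h2 : ∀ᶠ x : ℝ in atTop, Real.log x / x ^ (1 / 4 : ℝ) < 1 / 100 :=
    h1.eventually_lt_const (by norm_num)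
  have h3 : ∀ᶠ x : ℝ in atTop, (100000000 : ℝ) ≤ x := eventually_ge_atTop _
  obtain ⟨y₀, hy₀⟩ := eventually_atTop.1 (h2.and h3)
  refine ⟨max y₀ 3, le_max_right _ _, fun y hy => ?_⟩
  obtain ⟨h4, h5⟩ := hy₀ y (le_trans (le_max_left _ _) hy)
  have hy0 : 0 < y := by linarith
  have hq : 0 < y ^ (1 / 4 : ℝ) := Real.rpow_pos_of_pos hy0 _
  rw [div_lt_iff₀ hq] at h4
  have h6 := Chebyshev.theta_ge' (x := y) (by linarith)
  set q : ℝ := y ^ (1 / 4 : ℝ) with hqdef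
  have hq2 : q ^ 2 = √y := by
    rw [hqdef, ← Real.rpow_natCast, ← Real.rpow_mul hy0.le, Real.sqrt_eq_rpow]
    norm_num
  have hq4 : q ^ 4 = y := by
    rw [hqdef, ← Real.rpow_natCast, ← Real.rpow_mul hy0.le]
    norm_num
  have hq100 : 100 ≤ q := by
    by_contra h
    push Not at h
    have : q ^ 4 < 100 ^ 4 := pow_lt_pow_left₀ h hq.le (by norm_num)
    rw [hq4] at this
    norm_num at this
    linarith
  have hlog2 : Real.log (y + 2) ≤ Real.log y + 1 := by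
    have e1 : Real.log (y + 2) ≤ Real.log (2 * y) := Real.log_le_log (by linarith) (by linarith)
    rw [Real.log_mul (by norm_num) hy0.ne'] at e1
    have := Real.log_two_lt_d9
    linarith
  have hl2 := Real.log_two_gt_d9
  have h7 : 2 * √y * Real.log y ≤ 2 * q ^ 2 * (1 / 100 * q) := by
    rw [← hq2]
    apply mul_le_mul_of_nonneg_left h4.le (by positivity)
  have h8 : (y - 1) * Real.log 2 ≥ (y - 1) * 0.69 :=
    mul_le_mul_of_nonneg_left (by linarith) (by linarith)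
  have h9 : q ^ 3 * 100 ≤ y := by
    rw [← hq4]
    nlinarith [pow_pos hq 3]
  have h10 : q ≤ q ^ 3 := by nlinarith
  have h11 : q * 100 ≤ y := by linarith
  nlinarith

theorem p_CHL : Stmt_CHL := by
  obtain ⟨y₀, h3, h⟩ := CHL_ev
  refine ⟨1 / 4, y₀, by norm_num, h3, fun y hy σ hσ => ?_⟩
  have hy0 : 0 < y := by linarith
  have h1 : ∀ p ∈ PY y, Real.log p * y ^ (-σ) ≤ Real.log p * (p : ℝ) ^ (-σ) := by
    intro p hp
    unfold PY at hp
    rw [Finset.mem_filter, Finset.mem_Icc] at hp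
    have hp1 : (1 : ℝ) ≤ p := by exact_mod_cast hp.1.1
    have hpy : (p : ℝ) ≤ y := by
      have := Nat.floor_le hy0.le
      have h2 : (p : ℝ) ≤ (⌊y⌋₊ : ℝ) := by exact_mod_cast hp.1.2
      linarith
    apply mul_le_mul_of_nonneg_left _ (Real.log_nonneg hp1)
    exact Real.rpow_le_rpow_of_nonpos (by linarith) hpy (by linarith)
  refine le_trans ?_ (Finset.sum_le_sum h1)
  rw [← Finset.sum_mul, CHL_theta]
  have h2 : y ^ (1 - σ) = y * y ^ (-σ) := by
    rw [sub_eq_add_neg, Real.rpow_add hy0, Real.rpow_one]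
  rw [h2]
  have h4 : 0 ≤ y ^ (-σ) := Real.rpow_nonneg hy0.le _
  have h5 := mul_le_mul_of_nonneg_right (h y hy) h4
  linarith

end Pool.LDV
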