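import Mathlib
import Pool.Agent.Work.MP_e9b29d_nt.Main

/-! # Large deviations of the logarithmic derivative of zeta in the strip (helper69)

Block `X` lives in `B_X.lean` (import this file, namespace `Pool.LDV`) and proves
`theorem p_X : Stmt_X` or `theorem p_X (h1 : Stmt_Y) ... : Stmt_X`, with the statements of the
column `uses` of the table `ld_blocks` as hypotheses, in that order.
The library `Pool.Agent.Work.MP_e9b29d_nt` (helper55) has `ES`, `FF`, `PS`, `blk`, `badP`, `DD`,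
`GoodBox`, `mean_value`, `gap_sum_log`, `sob1`, `block_count_raw`, `DD_bound`, `propA`. -/

set_option autoImplicit false

namespace Pool.LDV

open Finset Filter MeasureTheory Pool.Agent.Work.MP_e9b29d_nt

/-- The primes up to `y`. -/
noncomputable def PY (y : ℝ) : Finset ℕ := (Icc 1 ⌊y⌋₊).filter Nat.Prime

/-- The primes in `(y, X]`. -/
noncomputable def QY (y : ℝ) (X : ℕ) : Finset ℕ :=
  open Classical in (Icc 1 X).filter (fun p : ℕ => p.Prime ∧ y < (p : ℝ))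

/-- `n ^ (-it)`. -/
noncomputable def ee (n : ℕ) (t : ℝ) : ℂ :=
  Complex.exp (((-Real.log n * t : ℝ) : ℂ) * Complex.I)

/-- The resonator: product over `P` of geometric sums in `w p ^ (-it)`. -/
noncomputable def RR (w : ℂ) (P : Finset ℕ) (K : ℕ) (t : ℝ) : ℂ :=
  ∏ p ∈ P, ∑ j ∈ range K, (w * ee p t) ^ j

/-- Error of the mean value theorem. -/
noncomputable def Er (M : ℕ) : ℝ := 4 * M * (1 + Real.log M)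

/-! ## Part 1: mean values -/

/-- MVG: two sided mean value theorem for Dirichlet polynomials with a general index type. -/
def Stmt_MVG : Prop :=
  ∀ (ι : Type) [Fintype ι] (m : ι → ℕ) (c : ι → ℂ) (M : ℕ) (A B : ℝ), Function.Injective m →
    (∀ i, 1 ≤ m i ∧ m i ≤ M) → A ≤ B →
    |(∫ t in A..B, ‖∑ i, c i * ee (m i) t‖ ^ 2) - (B - A) * ∑ i, ‖c i‖ ^ 2| ≤
      Er M * ∑ i, ‖c i‖ ^ 2

/-- PMV: mean value of a product over primes times a Dirichlet polynomial over integers prime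
to them. -/
def Stmt_PMV : Prop :=
  ∀ (P Q : Finset ℕ) (K M : ℕ) (a : ℕ → ℕ → ℂ) (b : ℕ → ℂ) (A B : ℝ), (∀ p ∈ P, p.Prime) →
    (∀ q ∈ Q, 1 ≤ q ∧ ∀ p ∈ P, ¬ p ∣ q) → (∀ q ∈ Q, q * ∏ p ∈ P, p ^ K ≤ M) → A ≤ B →
    |(∫ t in A..B, ‖(∏ p ∈ P, ∑ j ∈ range (K + 1), a p j * ee p t ^ j) *
        ∑ q ∈ Q, b q * ee q t‖ ^ 2) -
      (B - A) * ((∏ p ∈ P, ∑ j ∈ range (K + 1), ‖a p j‖ ^ 2) * ∑ q ∈ Q, ‖b q‖ ^ 2)| ≤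
      Er M * ((∏ p ∈ P, ∑ j ∈ range (K + 1), ‖a p j‖ ^ 2) * ∑ q ∈ Q, ‖b q‖ ^ 2)

/-- RLO: the mean square of the resonator from below, its size, continuity. -/
def Stmt_RLO : Prop :=
  ∀ (w : ℂ) (P : Finset ℕ) (K M : ℕ) (A B : ℝ), ‖w‖ = 1 → (∀ p ∈ P, p.Prime) → 1 ≤ K →
    ∏ p ∈ P, p ^ K ≤ M → A ≤ B →
    ((B - A) - Er M) * (K : ℝ) ^ P.card ≤ ∫ t in A..B, ‖RR w P K t‖ ^ 2

/-- RBD: size and continuity of the resonator. -/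
def Stmt_RBD : Prop :=
  ∀ (w : ℂ) (P : Finset ℕ) (K : ℕ), ‖w‖ = 1 → Continuous (fun t => RR w P K t) ∧
    (∀ t : ℝ, ‖RR w P K t‖ ≤ (K : ℝ) ^ P.card) ∧ ∀ (n : ℕ) (t : ℝ), ‖ee n t‖ = 1

/-- RZU: under the weight `|R|^2` the numbers `w p ^ (-it)` are close to `1`. -/
def Stmt_RZU : Prop :=
  ∀ (w : ℂ) (P : Finset ℕ) (K M : ℕ) (A B : ℝ), ‖w‖ = 1 → (∀ p ∈ P, p.Prime) → 1 ≤ K →
    ∏ p ∈ P, p ^ K ≤ M → A ≤ B → ∀ p ∈ P,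
    ∫ t in A..B, ‖RR w P K t‖ ^ 2 * (1 - (w * ee p t).re) ≤
      ((B - A) + Er M) * (K : ℝ) ^ P.card / K

/-- RGU: the resonator times a Dirichlet polynomial over integers prime to `P`. -/
def Stmt_RGU : Prop :=
  ∀ (w : ℂ) (P Q : Finset ℕ) (K M : ℕ) (b : ℕ → ℂ) (A B : ℝ), ‖w‖ = 1 → (∀ p ∈ P, p.Prime) →
    1 ≤ K → (∀ q ∈ Q, 1 ≤ q ∧ ∀ p ∈ P, ¬ p ∣ q) → (∀ q ∈ Q, q * ∏ p ∈ P, p ^ K ≤ M) → A ≤ B →
    ∫ t in A..B, ‖RR w P K t‖ ^ 2 * ‖∑ q ∈ Q, b q * ee q t‖ ^ 2 ≤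
      ((B - A) + Er M) * ((K : ℝ) ^ P.card * ∑ q ∈ Q, ‖b q‖ ^ 2)

/-! ## Part 2: arithmetic -/

/-- TLQ: sums over the primes beyond `y`. -/
def Stmt_TLQ : Prop :=
  ∀ a : ℝ, 1 / 2 < a → a ≤ 1 → ∃ C : ℝ, 0 ≤ C ∧ ∀ (y : ℝ) (X : ℕ), 3 ≤ y →
    ∑ q ∈ QY y X, (Real.log q / y * Real.exp (a * (Real.log y - Real.log q))) ^ 2 *
      (1 + (Real.log y - Real.log q) ^ 2) ≤ C * Real.log y / y

/-- CHL: Chebyshev's lower bound. -/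
def Stmt_CHL : Prop :=
  ∃ c₀ y₀ : ℝ, 0 < c₀ ∧ 3 ≤ y₀ ∧ ∀ y : ℝ, y₀ ≤ y → ∀ σ : ℝ, 0 ≤ σ →
    c₀ * y ^ (1 - σ) ≤ ∑ p ∈ PY y, Real.log p * (p : ℝ) ^ (-σ)

/-- PIU: the number of primes up to `y`, and their product. -/
def Stmt_PIU : Prop :=
  (∃ y₀ : ℝ, 3 ≤ y₀ ∧ ∀ y : ℝ, y₀ ≤ y → ((PY y).card : ℝ) ≤ 3 * y / Real.log y) ∧
  ∀ (y : ℝ) (K : ℕ), 0 ≤ y → ((∏ p ∈ PY y, p ^ K : ℕ) : ℝ) ≤ Real.exp (2 * K * y)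

/-! ## Part 3: the majorants -/

/-- The weighted distance of the `w p ^ (-it)`, `p ≤ y`, from `1`. -/
noncomputable def G1 (b y : ℝ) (w : ℂ) (t : ℝ) : ℝ :=
  y ^ (b - 1) * ∑ p ∈ PY y, Real.log p * (p : ℝ) ^ (-b) * (1 - (w * ee p t).re)

/-- The derivative of `PS` in `σ`. -/
noncomputable def PSd (Q : Finset ℕ) (y σ t : ℝ) : ℂ :=
  FF Q (fun p => ((Real.log p / y : ℝ) : ℂ) * ((Real.log y - Real.log p : ℝ) : ℂ))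
    (fun p => Real.log y - Real.log p) (fun p => -Real.log p) σ t

/-- Sobolev majorant of the square of the supremum over `σ` in `[a,b]`. -/
noncomputable def SS (Q : Finset ℕ) (a b y t : ℝ) : ℝ :=
  (1 / (b - a) + 1) * (∫ v in a..b, ‖PS Q y v t‖ ^ 2) + ∫ v in a..b, ‖PSd Q y v t‖ ^ 2

/-- SMJ: the Sobolev majorant. -/
def Stmt_SMJ : Prop :=
  ∀ (Q : Finset ℕ) (a b y : ℝ), a < b →
    Continuous (fun t => SS Q a b y t) ∧ (∀ t : ℝ, 0 ≤ SS Q a b y t) ∧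
    ∀ σ ∈ Set.Icc a b, ∀ t : ℝ, ‖PS Q y σ t‖ ^ 2 ≤ SS Q a b y t

/-- SMI: the majorant under the weight. -/
def Stmt_SMI : Prop :=
  ∀ a b : ℝ, 1 / 2 < a → a < b → b ≤ 1 → ∃ C : ℝ, 0 ≤ C ∧
    ∀ (w : ℂ) (y : ℝ) (X K M : ℕ) (A B : ℝ), ‖w‖ = 1 → 3 ≤ y → 1 ≤ K → 1 ≤ X →
      X * ∏ p ∈ PY y, p ^ K ≤ M → A ≤ B →
      ∫ t in A..B, ‖RR w (PY y) K t‖ ^ 2 * SS (QY y X) a b y t ≤
        ((B - A) + Er M) * (K : ℝ) ^ (PY y).card * (C * Real.log y / y)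

/-- GI: `G1` under the weight. -/
def Stmt_GI : Prop :=
  ∀ b : ℝ, 0 ≤ b → b < 1 → ∃ C : ℝ, 0 ≤ C ∧
    ∀ (w : ℂ) (y : ℝ) (K M : ℕ) (A B : ℝ), ‖w‖ = 1 → 3 ≤ y → 1 ≤ K →
      ∏ p ∈ PY y, p ^ K ≤ M → A ≤ B →
      Continuous (fun t => G1 b y w t) ∧ (∀ t : ℝ, 0 ≤ G1 b y w t) ∧
      ∫ t in A..B, ‖RR w (PY y) K t‖ ^ 2 * G1 b y w t ≤
        ((B - A) + Er M) * (K : ℝ) ^ (PY y).card * (C / K)

/-- PNT: the value of `DD` at a point where both majorants are small. -/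
def Stmt_PNT : Prop :=
  ∀ a b : ℝ, 1 / 2 < a → a < b → b < 1 → ∃ C : ℝ, 0 ≤ C ∧
    ∀ (w : ℂ) (y : ℝ) (X : ℕ), ‖w‖ = 1 → 3 ≤ y → y ≤ X → ∀ σ ∈ Set.Icc a b, ∀ t : ℝ,
      ∑ p ∈ PY y, Real.log p * (p : ℝ) ^ (-σ) - y ^ (1 - σ) * G1 b y w t -
        y ^ (1 - σ) * ‖PS (QY y X) y σ t‖ - C ≤
      (w * DD X ((σ : ℂ) + t * Complex.I)).re

/-! ## Part 4: lower bound -/

/-- LOW: many boxes with a large value of `DD` in direction `w`. -/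
def Stmt_LOW : Prop :=
  ∀ a b θ κ δ : ℝ, 1 / 2 < a → a < b → b < 1 → 0 < θ → θ ≤ 1 → 0 < κ → κ ≤ θ / 16 → 0 < δ →
    ∃ c C y₀ : ℝ, 0 < c ∧ 0 < C ∧ 3 ≤ y₀ ∧ ∀ᶠ T : ℕ in atTop, ∀ H : ℕ, (T : ℝ) ^ θ ≤ H →
      ∀ (y : ℝ) (w : ℂ) (Bad : Finset ℕ), y₀ ≤ y → y ≤ c * Real.log T → ‖w‖ = 1 →
      (Bad.card : ℝ) ≤ H * (T : ℝ) ^ (-δ) →
      ∃ G : Finset ℕ, G ⊆ Ico T (T + H) \ Bad ∧
        H * Real.exp (-(C * y / Real.log y)) ≤ (G.card : ℝ) ∧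
        ∀ n ∈ G, ∃ t ∈ Set.Icc (n : ℝ) (n + 1), ∀ σ ∈ Set.Icc a b,
          c * y ^ (1 - σ) + 1 ≤ (w * DD ⌊(T : ℝ) ^ κ⌋₊ ((σ : ℂ) + t * Complex.I)).re

/-! ## Part 5: upper bound -/

/-- BCK: number of boxes where a block is large. -/
def Stmt_BCK : Prop :=
  ∀ a b θ κ : ℝ, 1 / 2 < a → a < b → b ≤ 1 → 0 < θ → θ ≤ 1 → κ ≤ θ / 16 →
    ∃ c y₀ : ℝ, 0 < c ∧ 3 ≤ y₀ ∧ ∀ᶠ T : ℕ in atTop, ∀ H : ℕ, (T : ℝ) ^ θ ≤ H →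
      ∀ y : ℝ, y₀ ≤ y → y ≤ Real.log T → ∀ j X : ℕ, (X : ℝ) ≤ (T : ℝ) ^ κ →
      ((badP a b (blk X (2 ^ j * y)) y (2 * ((2 : ℝ) ^ (-((2 * a - 1) / 4))) ^ j) T
        (T + H)).card : ℝ) ≤
      H * Real.exp (-(c * min (y * (2 : ℝ) ^ (j * ((2 * a - 1) / 4))) (Real.log T) /
        Real.log y))

/-- UPP: all but few boxes satisfy the upper bound for `DD`. -/
def Stmt_UPP : Prop :=
  ∀ a b θ κ : ℝ, 1 / 2 < a → a < b → b < 1 → 0 < θ → θ ≤ 1 → 0 < κ → κ ≤ θ / 16 →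
    ∃ C c y₀ : ℝ, 3 ≤ C ∧ 0 < c ∧ 3 ≤ y₀ ∧ ∀ᶠ T : ℕ in atTop, ∀ H : ℕ, (T : ℝ) ^ θ ≤ H →
      ∀ y : ℝ, y₀ ≤ y → y ≤ c * Real.log T →
      ∃ Bad : Finset ℕ, (Bad.card : ℝ) ≤ H * Real.exp (-(c * y / Real.log y)) ∧
        ∀ n ∈ Ico T (T + H), n ∉ Bad → ∀ σ ∈ Set.Icc a b, ∀ t ∈ Set.Icc (n : ℝ) (n + 1),
          ‖DD ⌊(T : ℝ) ^ κ⌋₊ ((σ : ℂ) + t * Complex.I)‖ ≤ (C - 1) * y ^ (1 - σ)

/-! ## Part 6: the theorem -/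

/-- FIN: the final theorem. -/
def Stmt_FIN : Prop :=
  ∀ a b θ : ℝ, 1 / 2 < a → a < b → b < 1 → 2 - 2 * a < θ → θ ≤ 1 →
    ∃ C c y₀ T₀ : ℝ, 0 < C ∧ 0 < c ∧ ∀ T H : ℕ, T₀ ≤ T → (T : ℝ) ^ θ ≤ H → H ≤ T →
      ∀ y : ℝ, y₀ ≤ y → y ≤ c * Real.log T →
      ((({n : ℕ | T ≤ n ∧ n < T + H ∧ ¬ ∀ t ∈ Set.Icc (n : ℝ) (n + 1),
          (∀ σ : ℝ, a ≤ σ → riemannZeta (σ + t * Complex.I) ≠ 0) ∧
          ∀ σ ∈ Set.Icc a b,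
            ‖deriv riemannZeta (σ + t * Complex.I) / riemannZeta (σ + t * Complex.I)‖ ≤
              C * y ^ (1 - σ)}.ncard : ℕ) : ℝ) ≤ H * Real.exp (-(c * y / Real.log y))) ∧
      ∀ φ : ℝ, H * Real.exp (-(C * y / Real.log y)) ≤
        (({n : ℕ | T ≤ n ∧ n < T + H ∧ ∃ t ∈ Set.Icc (n : ℝ) (n + 1), ∀ σ ∈ Set.Icc a b,
          riemannZeta (σ + t * Complex.I) ≠ 0 ∧ c * y ^ (1 - σ) ≤
            (Complex.exp (φ * Complex.I) * (deriv riemannZeta (σ + t * Complex.I) /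
              riemannZeta (σ + t * Complex.I))).re}.ncard : ℕ) : ℝ)

end Pool.LDV
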