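import Mathlib
import Pool.Agent.Work.MP_e9b29d_ld.Interface

/-! Block FIN: the final theorem from LOW and UPP. -/

set_option autoImplicit false

namespace Pool.LDV

open Finset Filter MeasureTheory Pool.Agent.Work.MP_e9b29d_nt

namespace FIN

lemma ev_div_log {K : ℝ} : ∃ y₀ : ℝ, 3 ≤ y₀ ∧ ∀ y : ℝ, y₀ ≤ y → K ≤ y / Real.log y := by
  have h := Real.isLittleO_log_id_atTop
  have h2 := h.def (c := 1 / (|K| + 1)) (by positivity)
  obtain ⟨y₁, hy₁⟩ := Filter.eventually_atTop.1 h2
  refine ⟨max y₁ 3, le_max_right _ _, ?_⟩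
  intro y hy
  have h3 := hy₁ y ((le_max_left _ _).trans hy)
  have hy3 : (3 : ℝ) ≤ y := (le_max_right _ _).trans hy
  have hl : 0 < Real.log y := Real.log_pos (by linarith)
  rw [Real.norm_of_nonneg hl.le, id, Real.norm_of_nonneg (by linarith)] at h3
  rw [le_div_iff₀ hl]
  have hK : 0 < |K| + 1 := by positivity
  have h4 : (|K| + 1) * Real.log y ≤ y := by
    calc (|K| + 1) * Real.log y ≤ (|K| + 1) * (1 / (|K| + 1) * y) :=
          mul_le_mul_of_nonneg_left h3 hK.le
      _ = y := by field_simp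
  have h5 : K ≤ |K| + 1 := by linarith [le_abs_self K]
  nlinarith

end FIN

open FIN in
theorem p_FIN (hLOW : Stmt_LOW) (hUPP : Stmt_UPP) : Stmt_FIN := by
  classical
  intro a b θ ha hab hb hθ hθ1
  have hθ0 : 0 < θ := by linarith
  obtain ⟨κ, δ, hκ0, hδ0, hκθ, hA⟩ := propA ha (hab.trans hb) hθ hθ1
  obtain ⟨cL, CL, yL, hcL0, hCL0, hyL, hL⟩ := hLOW a b θ κ δ ha hab hb hθ0 hθ1 hκ0 hκθ hδ0
  obtain ⟨CU, cU, yU, hCU, hcU0, hyU, hU⟩ := hUPP a b θ κ ha hab hb hθ0 hθ1 hκ0 hκθ
  obtain ⟨yK, hyK3, hyK⟩ := ev_div_log (K := 2 / cU)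
  set c : ℝ := min (min cL (cU / 2)) (min (δ / 2) 1) with hc
  have hc_L : c ≤ cL := (min_le_left _ _).trans (min_le_left _ _)
  have hc_U : c ≤ cU / 2 := (min_le_left _ _).trans (min_le_right _ _)
  have hc_δ : c ≤ δ / 2 := (min_le_right _ _).trans (min_le_left _ _)
  have hc_1 : c ≤ 1 := (min_le_right _ _).trans (min_le_right _ _)
  have hc0 : 0 < c := lt_min (lt_min hcL0 (half_pos hcU0)) (lt_min (half_pos hδ0) one_pos)
  set C : ℝ := max CU CL with hC
  have hCU' : CU ≤ C := le_max_left _ _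
  have hCL' : CL ≤ C := le_max_right _ _
  have hlog : Filter.Tendsto (fun T : ℕ => Real.log (T : ℝ)) Filter.atTop Filter.atTop :=
    Real.tendsto_log_atTop.comp tendsto_natCast_atTop_atTop
  have hev := ((hA.and (hL.and hU)).and ((Filter.eventually_ge_atTop 3).and
    (hlog.eventually_ge_atTop 1)))
  obtain ⟨T₀, hT₀⟩ := Filter.eventually_atTop.1 hev
  refine ⟨C, c, max (max yL yU) yK, T₀, by linarith, hc0, ?_⟩
  intro T H hT hH hHT y hy hyT
  obtain ⟨⟨hA', hL', hU'⟩, hT3, hT4⟩ := hT₀ T (by exact_mod_cast hT)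
  have hT0 : (0 : ℝ) < T := by exact_mod_cast (by omega : 0 < T)
  have hlT0 : 0 < Real.log T := by linarith
  have hy_L : yL ≤ y := ((le_max_left _ _).trans (le_max_left _ _)).trans hy
  have hy_U : yU ≤ y := ((le_max_right _ _).trans (le_max_left _ _)).trans hy
  have hy_K : yK ≤ y := (le_max_right _ _).trans hy
  have hy3 : 3 ≤ y := hyL.trans hy_L
  have hy0 : 0 < y := by linarith
  have hy1 : 1 ≤ y := by linarith
  have hly1 : 1 ≤ Real.log y := by
    rw [Real.le_log_iff_exp_le hy0]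
    have := Real.exp_one_lt_d9
    linarith
  have hly0 : 0 < Real.log y := by linarith
  have hyTL : y ≤ cL * Real.log T := hyT.trans (mul_le_mul_of_nonneg_right hc_L hlT0.le)
  have hyTU : y ≤ cU * Real.log T :=
    hyT.trans (mul_le_mul_of_nonneg_right (by linarith) hlT0.le)
  have hA'' := hA' H hH hHT
  have hH0 : (0 : ℝ) ≤ H := Nat.cast_nonneg H
  set BA := (Ico T (T + H)).filter (fun n => ¬ GoodBox a ⌊(T : ℝ) ^ κ⌋₊ n) with hBA
  have hgood : ∀ n ∈ Ico T (T + H), n ∉ BA → GoodBox a ⌊(T : ℝ) ^ κ⌋₊ n := by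
    intro n hn hnB
    by_contra h
    exact hnB (by rw [hBA, mem_filter]; exact ⟨hn, h⟩)
  constructor
  · obtain ⟨Bad, hBc, hBn⟩ := hU' H hH y hy_U hyTU
    set S : Set ℕ := {n : ℕ | T ≤ n ∧ n < T + H ∧ ¬ ∀ t ∈ Set.Icc (n : ℝ) (n + 1),
          (∀ σ : ℝ, a ≤ σ → riemannZeta (σ + t * Complex.I) ≠ 0) ∧
          ∀ σ ∈ Set.Icc a b,
            ‖deriv riemannZeta (σ + t * Complex.I) / riemannZeta (σ + t * Complex.I)‖ ≤
              C * y ^ (1 - σ)} with hS
    have hsub : S ⊆ ((BA ∪ Bad : Finset ℕ) : Set ℕ) := by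
      intro n hn
      obtain ⟨hn1, hn2, hn3⟩ := hn
      have hnI : n ∈ Ico T (T + H) := mem_Ico.2 ⟨hn1, hn2⟩
      by_contra hcon
      rw [mem_coe, mem_union, not_or] at hcon
      have hg := hgood n hnI hcon.1
      apply hn3
      intro t ht
      constructor
      · intro σ hσ
        rcases le_or_gt σ 1 with h | h
        · exact (hg σ ⟨hσ, h⟩ t ht).1
        · apply riemannZeta_ne_zero_of_one_le_re
          simp
          exact h.le
      · intro σ hσ
        have h2 := (hg σ ⟨hσ.1, by linarith [hσ.2]⟩ t ht).2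
        have h3 := hBn n hnI hcon.2 σ hσ t ht
        have h4 : ‖deriv riemannZeta (σ + t * Complex.I) / riemannZeta (σ + t * Complex.I)‖ ≤
            ‖deriv riemannZeta (σ + t * Complex.I) / riemannZeta (σ + t * Complex.I) +
              DD ⌊(T : ℝ) ^ κ⌋₊ (σ + t * Complex.I)‖
            + ‖DD ⌊(T : ℝ) ^ κ⌋₊ (σ + t * Complex.I)‖ := by
          have := norm_sub_le (deriv riemannZeta (σ + t * Complex.I) /
            riemannZeta (σ + t * Complex.I) +
            DD ⌊(T : ℝ) ^ κ⌋₊ (σ + t * Complex.I)) (DD ⌊(T : ℝ) ^ κ⌋₊ (σ + t * Complex.I))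
          rw [add_sub_cancel_right] at this
          exact this
        have h5 : 1 ≤ y ^ (1 - σ) := Real.one_le_rpow hy1 (by linarith [hσ.2])
        have h6 : CU * y ^ (1 - σ) ≤ C * y ^ (1 - σ) :=
          mul_le_mul_of_nonneg_right hCU' (by linarith)
        nlinarith
    have hcard : S.ncard ≤ (BA ∪ Bad).card := by
      have := Set.ncard_le_ncard hsub (Finset.finite_toSet _)
      rwa [Set.ncard_coe_finset] at this
    have hcard2 : (S.ncard : ℝ) ≤ (BA.card : ℝ) + (Bad.card : ℝ) := by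
      rw [← Nat.cast_add]
      exact Nat.cast_le.2 (le_trans hcard (Finset.card_union_le _ _))
    refine le_trans hcard2 ?_
    have hX := hyK y hy_K
    set X : ℝ := y / Real.log y with hXdef
    have hX0 : 0 < X := by positivity
    have hXy : X ≤ y := by
      rw [hXdef, div_le_iff₀ hly0]
      nlinarith
    have eU : cU * y / Real.log y = cU * X := by rw [hXdef]; ring
    have eC : c * y / Real.log y = c * X := by rw [hXdef]; ring
    rw [eU] at hBc
    rw [eC]
    have hl2 : Real.log 2 ≤ 1 := by have := Real.log_two_lt_d9; linarith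
    have k1 : Real.exp (-(cU * X)) ≤ Real.exp (-(c * X)) / 2 := by
      have : Real.exp (-(c * X)) / 2 = Real.exp (-(c * X) - Real.log 2) := by
        rw [Real.exp_sub, Real.exp_log (by norm_num)]
      rw [this]
      apply Real.exp_le_exp.2
      have h1 : c * X ≤ cU / 2 * X := mul_le_mul_of_nonneg_right hc_U hX0.le
      have h2 : 1 ≤ cU / 2 * X := by
        have : cU / 2 * (2 / cU) ≤ cU / 2 * X := mul_le_mul_of_nonneg_left hX (by linarith)
        have e : cU / 2 * (2 / cU) = 1 := by field_simp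
        linarith
      nlinarith
    have k2 : (T : ℝ) ^ (-δ) ≤ Real.exp (-(c * X)) / 2 := by
      have : Real.exp (-(c * X)) / 2 = Real.exp (-(c * X) - Real.log 2) := by
        rw [Real.exp_sub, Real.exp_log (by norm_num)]
      rw [this, Real.rpow_def_of_pos hT0]
      apply Real.exp_le_exp.2
      have h1 : c * X ≤ 1 * y := mul_le_mul hc_1 hXy hX0.le (by norm_num)
      have h2 : y ≤ δ / 2 * Real.log T := hyT.trans (mul_le_mul_of_nonneg_right hc_δ hlT0.le)
      nlinarith
    have k3 : (H : ℝ) * (T : ℝ) ^ (-δ) ≤ H * (Real.exp (-(c * X)) / 2) :=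
      mul_le_mul_of_nonneg_left k2 hH0
    have k4 : (H : ℝ) * Real.exp (-(cU * X)) ≤ H * (Real.exp (-(c * X)) / 2) :=
      mul_le_mul_of_nonneg_left k1 hH0
    linarith
  · intro φ
    have hw : ‖-Complex.exp (φ * Complex.I)‖ = 1 := by
      rw [norm_neg, Complex.norm_exp_ofReal_mul_I]
    obtain ⟨G, hG1, hG2, hG3⟩ := hL' H hH y (-Complex.exp (φ * Complex.I)) BA hy_L hyTL hw hA''
    set S : Set ℕ := {n : ℕ | T ≤ n ∧ n < T + H ∧ ∃ t ∈ Set.Icc (n : ℝ) (n + 1),
          ∀ σ ∈ Set.Icc a b,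
          riemannZeta (σ + t * Complex.I) ≠ 0 ∧ c * y ^ (1 - σ) ≤
            (Complex.exp (φ * Complex.I) * (deriv riemannZeta (σ + t * Complex.I) /
              riemannZeta (σ + t * Complex.I))).re} with hS
    have hsub : (G : Set ℕ) ⊆ S := by
      intro n hn
      rw [mem_coe] at hn
      have hn1 := hG1 hn
      rw [Finset.mem_sdiff] at hn1
      have hg := hgood n hn1.1 hn1.2
      obtain ⟨t, ht, h3⟩ := hG3 n hn
      refine ⟨(mem_Ico.1 hn1.1).1, (mem_Ico.1 hn1.1).2, t, ht, ?_⟩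
      intro σ hσ
      have hgσ := hg σ ⟨hσ.1, by linarith [hσ.2]⟩ t ht
      refine ⟨hgσ.1, ?_⟩
      have h4 := h3 σ hσ
      have h5 := hgσ.2
      set D := DD ⌊(T : ℝ) ^ κ⌋₊ ((σ : ℂ) + t * Complex.I) with hD
      set Z := deriv riemannZeta ((σ : ℂ) + t * Complex.I) /
        riemannZeta ((σ : ℂ) + t * Complex.I) with hZ
      have e1 : (Complex.exp (φ * Complex.I) * Z).re =
          (-Complex.exp (φ * Complex.I) * D).re +
            (Complex.exp (φ * Complex.I) * (Z + D)).re := by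
        rw [← Complex.add_re]
        congr 1
        ring
      have h6 : -1 ≤ (Complex.exp (φ * Complex.I) * (Z + D)).re := by
        have h7 : |(Complex.exp (φ * Complex.I) * (Z + D)).re| ≤ 1 := by
          refine (Complex.abs_re_le_norm _).trans ?_
          rw [norm_mul, Complex.norm_exp_ofReal_mul_I, one_mul]
          exact h5
        exact (abs_le.1 h7).1
      have h8 : c * y ^ (1 - σ) ≤ cL * y ^ (1 - σ) :=
        mul_le_mul_of_nonneg_right hc_L (by positivity)
      rw [e1]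
      linarith
    have hfin : S.Finite := by
      apply (Finset.finite_toSet (Ico T (T + H))).subset
      intro n hn
      rw [mem_coe, mem_Ico]
      exact ⟨hn.1, hn.2.1⟩
    have hcard : G.card ≤ S.ncard := by
      have := Set.ncard_le_ncard hsub hfin
      rwa [Set.ncard_coe_finset] at this
    have h9 : (G.card : ℝ) ≤ (S.ncard : ℝ) := by exact_mod_cast hcard
    refine le_trans (le_trans ?_ hG2) h9
    apply mul_le_mul_of_nonneg_left _ hH0
    apply Real.exp_le_exp.2
    have : CL * y / Real.log y ≤ C * y / Real.log y := by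
      apply div_le_div_of_nonneg_right _ hly0.le
      exact mul_le_mul_of_nonneg_right hCL' hy0.le
    linarith

end Pool.LDV
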