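import Pool.Agent.Work.MP_e9b29d_ld.Interface

/-! Block GI (helper36): the function `G1` under the weight. -/

set_option autoImplicit false

namespace Pool.LDV

open Finset Filter MeasureTheory Pool.Agent.Work.MP_e9b29d_nt

theorem GI_sum {b : ℝ} (hb0 : 0 ≤ b) (hb : b < 1) : ∃ C : ℝ, 0 ≤ C ∧ ∀ y : ℝ, 3 ≤ y →
    ∑ p ∈ PY y, Real.log p * (p : ℝ) ^ (-b) ≤ C * y ^ (1 - b) := by
  obtain ⟨C, hC, h⟩ := small_primes_bound hb
  refine ⟨C, hC, fun y hy => ?_⟩
  have h1 := h b hb0 le_rfl y (by linarith) ⌊y⌋₊ (Nat.floor_le (by linarith))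
  refine le_trans (le_of_eq ?_) h1
  rw [PY, Finset.sum_filter]
  have h2 : Icc 1 ⌊y⌋₊ = Ioc 0 ⌊y⌋₊ := by
    ext n
    rw [mem_Icc, mem_Ioc]
    omega
  rw [h2]
  apply Finset.sum_congr rfl
  intro n _
  by_cases hn : n.Prime
  · rw [if_pos hn, if_pos hn]
  · rw [if_neg hn, if_neg hn, zero_mul]

theorem GI_prime {y : ℝ} {p : ℕ} (hp : p ∈ PY y) : p.Prime := (mem_filter.1 hp).2

theorem p_GI (hRZU : Stmt_RZU) (hRBD : Stmt_RBD) : Stmt_GI := by
  intro b hb0 hb
  obtain ⟨C, hC, hs⟩ := GI_sum hb0 hb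
  refine ⟨C, hC, ?_⟩
  intro w y K M A B hw hy hK hM hAB
  obtain ⟨hRc, -, hee⟩ := hRBD w (PY y) K hw
  have hec : ∀ p : ℕ, Continuous (fun t : ℝ => (w * ee p t).re) := by
    intro p
    unfold ee
    fun_prop
  have hre : ∀ (p : ℕ) (t : ℝ), 0 ≤ 1 - (w * ee p t).re := by
    intro p t
    have h1 : (w * ee p t).re ≤ ‖w * ee p t‖ := Complex.re_le_norm _
    rw [norm_mul, hw, hee, one_mul] at h1
    linarith
  have hy0 : (0 : ℝ) < y := by linarith
  have hyb : (0 : ℝ) ≤ y ^ (b - 1) := (Real.rpow_pos_of_pos hy0 _).le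
  have hcp : ∀ p : ℕ, 0 ≤ Real.log p * (p : ℝ) ^ (-b) := fun p =>
    mul_nonneg (Real.log_natCast_nonneg p) (Real.rpow_nonneg (Nat.cast_nonneg p) _)
  refine ⟨?_, ?_, ?_⟩
  · unfold G1
    refine continuous_const.mul (continuous_finsetSum _ fun p _ => ?_)
    exact continuous_const.mul (continuous_const.sub (hec p))
  · intro t
    unfold G1
    exact mul_nonneg hyb (Finset.sum_nonneg fun p _ => mul_nonneg (hcp p) (hre p t))
  · have hEr : 0 ≤ (B - A) + Er M := by
      have h1 : 0 ≤ Er M := by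
        unfold Er
        have := Real.log_natCast_nonneg M
        positivity
      linarith
    set X : ℝ := ((B - A) + Er M) * (K : ℝ) ^ (PY y).card with hX
    have hX0 : 0 ≤ X := by positivity
    have hint : ∫ t in A..B, ‖RR w (PY y) K t‖ ^ 2 * G1 b y w t =
        y ^ (b - 1) * ∑ p ∈ PY y, Real.log p * (p : ℝ) ^ (-b) *
          ∫ t in A..B, ‖RR w (PY y) K t‖ ^ 2 * (1 - (w * ee p t).re) := by
      have e1 : ∀ t : ℝ, ‖RR w (PY y) K t‖ ^ 2 * G1 b y w t =
          y ^ (b - 1) * ∑ p ∈ PY y, Real.log p * (p : ℝ) ^ (-b) *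
            (‖RR w (PY y) K t‖ ^ 2 * (1 - (w * ee p t).re)) := by
        intro t
        unfold G1
        rw [mul_left_comm, Finset.mul_sum]
        congr 1
        apply Finset.sum_congr rfl
        intro p _
        ring
      simp_rw [e1]
      rw [intervalIntegral.integral_const_mul, intervalIntegral.integral_finsetSum]
      · congr 1
        apply Finset.sum_congr rfl
        intro p _
        rw [intervalIntegral.integral_const_mul]
      · intro p _
        apply Continuous.intervalIntegrable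
        exact continuous_const.mul ((hRc.norm.pow 2).mul (continuous_const.sub (hec p)))
    rw [hint]
    have h1 : ∑ p ∈ PY y, Real.log p * (p : ℝ) ^ (-b) *
        (∫ t in A..B, ‖RR w (PY y) K t‖ ^ 2 * (1 - (w * ee p t).re)) ≤
        ∑ p ∈ PY y, Real.log p * (p : ℝ) ^ (-b) * (X / K) := by
      apply Finset.sum_le_sum
      intro p hp
      exact mul_le_mul_of_nonneg_left
        (hRZU w (PY y) K M A B hw (fun q hq => GI_prime hq) hK hM hAB p hp) (hcp p)
    have hXK : 0 ≤ X / K := by positivity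
    have h2 : ∑ p ∈ PY y, Real.log p * (p : ℝ) ^ (-b) * (X / K) ≤
        (C * y ^ (1 - b)) * (X / K) := by
      rw [← Finset.sum_mul]
      exact mul_le_mul_of_nonneg_right (hs y hy) hXK
    have h3 : y ^ (b - 1) * y ^ (1 - b) = 1 := by
      rw [← Real.rpow_add hy0]
      have : b - 1 + (1 - b) = 0 := by ring
      rw [this, Real.rpow_zero]
    calc y ^ (b - 1) * ∑ p ∈ PY y, Real.log p * (p : ℝ) ^ (-b) *
          (∫ t in A..B, ‖RR w (PY y) K t‖ ^ 2 * (1 - (w * ee p t).re))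
        ≤ y ^ (b - 1) * ((C * y ^ (1 - b)) * (X / K)) :=
          mul_le_mul_of_nonneg_left (h1.trans h2) hyb
      _ = (y ^ (b - 1) * y ^ (1 - b)) * (C * (X / K)) := by ring
      _ = X * (C / K) := by rw [h3]; ring

end Pool.LDV
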