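import Pool.Agent.Work.MP_e9b29d_ld.Interface

set_option autoImplicit false

namespace Pool.LDV

open Finset Filter MeasureTheory Pool.Agent.Work.MP_e9b29d_nt

/-- The counting step: boxes in which the majorant `g` is somewhere below one. -/
theorem low_count (T H : ℕ) (Bad : Finset ℕ) (f g : ℝ → ℝ) (V I1 I2 : ℝ)
    (hf : Continuous f) (hg : Continuous g) (hf0 : ∀ t, 0 ≤ f t) (hg0 : ∀ t, 0 ≤ g t)
    (hV : 0 ≤ V) (hfV : ∀ t, f t ≤ V)
    (hI1 : I1 ≤ ∫ t in (T : ℝ)..((T : ℝ) + H), f t)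
    (hI2 : ∫ t in (T : ℝ)..((T : ℝ) + H), f t * g t ≤ I2) :
    ∃ G : Finset ℕ, G ⊆ Ico T (T + H) \ Bad ∧ I1 - I2 - Bad.card * V ≤ G.card * V ∧
      ∀ n ∈ G, ∃ t ∈ Set.Icc (n : ℝ) (n + 1), g t < 1 := by
  classical
  refine ⟨(Ico T (T + H) \ Bad).filter (fun n : ℕ => ∃ t ∈ Set.Icc (n : ℝ) (n + 1), g t < 1),
    Finset.filter_subset _ _, ?_, fun n hn => (Finset.mem_filter.mp hn).2⟩
  set G := (Ico T (T + H) \ Bad).filter
    (fun n : ℕ => ∃ t ∈ Set.Icc (n : ℝ) (n + 1), g t < 1) with hG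
  have hsplit : ∀ h : ℝ → ℝ, Continuous h →
      ∑ n ∈ Ico T (T + H), ∫ t in (n : ℝ)..((n : ℝ) + 1), h t =
        ∫ t in (T : ℝ)..((T : ℝ) + H), h t := by
    intro h hh
    have := intervalIntegral.sum_integral_adjacent_intervals_Ico (f := h) (μ := volume)
      (a := fun n : ℕ => (n : ℝ)) (m := T) (n := T + H) (Nat.le_add_right _ _)
      (fun k _ => hh.intervalIntegrable _ _)
    simp only [Nat.cast_add, Nat.cast_one] at this
    exact this
  have hfg : Continuous (fun t => f t * g t) := hf.mul hg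
  have hW : ∀ n ∈ Ico T (T + H), ∫ t in (n : ℝ)..((n : ℝ) + 1), f t ≤
      (∫ t in (n : ℝ)..((n : ℝ) + 1), f t * g t) + (if n ∈ G then V else 0) +
        (if n ∈ Bad then V else 0) := by
    intro n hn
    have hfg0 : 0 ≤ ∫ t in (n : ℝ)..((n : ℝ) + 1), f t * g t :=
      intervalIntegral.integral_nonneg (by linarith) (fun t _ => mul_nonneg (hf0 t) (hg0 t))
    have hle : ∫ t in (n : ℝ)..((n : ℝ) + 1), f t ≤ V := by
      have h1 : ∫ t in (n : ℝ)..((n : ℝ) + 1), f t ≤ ∫ t in (n : ℝ)..((n : ℝ) + 1), V :=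
        intervalIntegral.integral_mono_on (by linarith) (hf.intervalIntegrable _ _)
          (by simp) (fun t _ => hfV t)
      simpa using h1
    by_cases h1 : n ∈ G
    · rw [if_pos h1]
      have : (0 : ℝ) ≤ if n ∈ Bad then V else 0 := by split_ifs <;> linarith
      linarith
    · by_cases h2 : n ∈ Bad
      · rw [if_neg h1, if_pos h2]; linarith
      · rw [if_neg h1, if_neg h2]
        have h3 : ∀ t ∈ Set.Icc (n : ℝ) (n + 1), 1 ≤ g t := by
          intro t ht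
          by_contra hlt
          push Not at hlt
          exact h1 (Finset.mem_filter.mpr ⟨Finset.mem_sdiff.mpr ⟨hn, h2⟩, t, ht, hlt⟩)
        have h4 : ∫ t in (n : ℝ)..((n : ℝ) + 1), f t ≤
            ∫ t in (n : ℝ)..((n : ℝ) + 1), f t * g t := by
          apply intervalIntegral.integral_mono_on (by linarith) (hf.intervalIntegrable _ _)
            (hfg.intervalIntegrable _ _)
          intro t ht
          have := h3 t ht
          have := hf0 t
          nlinarith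
        linarith
  have hsum := Finset.sum_le_sum hW
  rw [hsplit f hf, Finset.sum_add_distrib, Finset.sum_add_distrib, hsplit _ hfg] at hsum
  have hGsum : ∑ n ∈ Ico T (T + H), (if n ∈ G then V else 0) ≤ G.card * V := by
    rw [← Finset.sum_filter, Finset.sum_const, nsmul_eq_mul]
    apply mul_le_mul_of_nonneg_right _ hV
    exact_mod_cast Finset.card_le_card (fun n hn => (Finset.mem_filter.mp hn).2)
  have hBsum : ∑ n ∈ Ico T (T + H), (if n ∈ Bad then V else 0) ≤ Bad.card * V := by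
    rw [← Finset.sum_filter, Finset.sum_const, nsmul_eq_mul]
    apply mul_le_mul_of_nonneg_right _ hV
    exact_mod_cast Finset.card_le_card (fun n hn => (Finset.mem_filter.mp hn).2)
  linarith

/-- The counting step with the sizes of the masses. -/
theorem low_core (T H : ℕ) (Bad : Finset ℕ) (f g : ℝ → ℝ) (E Km β : ℝ)
    (hf : Continuous f) (hg : Continuous g) (hf0 : ∀ t, 0 ≤ f t) (hg0 : ∀ t, 0 ≤ g t)
    (hKm : 0 < Km) (hfV : ∀ t, f t ≤ Km ^ 2)
    (hI1 : ((H : ℝ) - E) * Km ≤ ∫ t in (T : ℝ)..((T : ℝ) + H), f t)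
    (hI2 : ∫ t in (T : ℝ)..((T : ℝ) + H), f t * g t ≤ ((H : ℝ) + E) * Km * (2 / 9))
    (hE : E ≤ H / 8) (hBad : (Bad.card : ℝ) ≤ H * β) (hβ : β * Km ≤ 1 / 8) :
    ∃ G : Finset ℕ, G ⊆ Ico T (T + H) \ Bad ∧ (H : ℝ) / 2 ≤ G.card * Km ∧
      ∀ n ∈ G, ∃ t ∈ Set.Icc (n : ℝ) (n + 1), g t < 1 := by
  obtain ⟨G, hG1, hG2, hG3⟩ := low_count T H Bad f g (Km ^ 2) _ _ hf hg hf0 hg0
    (by positivity) hfV hI1 hI2
  refine ⟨G, hG1, ?_, hG3⟩
  have h1 : (Bad.card : ℝ) * Km ≤ H / 8 := by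
    calc (Bad.card : ℝ) * Km ≤ H * β * Km := mul_le_mul_of_nonneg_right hBad hKm.le
      _ = H * (β * Km) := by ring
      _ ≤ H * (1 / 8) := mul_le_mul_of_nonneg_left hβ (by positivity)
      _ = H / 8 := by ring
  have h2 : (((H : ℝ) - E) - (H + E) * (2 / 9) - Bad.card * Km) * Km ≤ (G.card * Km) * Km := by
    calc _ = ((H : ℝ) - E) * Km - (H + E) * Km * (2 / 9) - Bad.card * Km ^ 2 := by ring
      _ ≤ G.card * Km ^ 2 := hG2
      _ = _ := by ring
  have h3 := le_of_mul_le_mul_right h2 hKm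
  linarith

/-- Conditions on `T`. -/
theorem low_ev (θ κ δ : ℝ) (hθ : 0 < θ) (hκ : 0 < κ) (hδ : 0 < δ) :
    ∀ᶠ T : ℕ in atTop, (1 : ℝ) ≤ T ∧ (128 : ℝ) ≤ (T : ℝ) ^ (θ / 2) ∧
      (T : ℝ) ^ (-(δ / 2)) ≤ 1 / 8 ∧ Real.log T ≤ (⌊(T : ℝ) ^ κ⌋₊ : ℝ) := by
  have h1 : ∀ᶠ x : ℝ in atTop, (1 : ℝ) ≤ x ∧ (128 : ℝ) ≤ x ^ (θ / 2) ∧
      x ^ (-(δ / 2)) ≤ 1 / 8 ∧ Real.log x ≤ (⌊x ^ κ⌋₊ : ℝ) := by
    have e1 : ∀ᶠ x : ℝ in atTop, (128 : ℝ) ≤ x ^ (θ / 2) :=
      (tendsto_rpow_atTop (by linarith : 0 < θ / 2)).eventually_ge_atTop 128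
    have e2 : ∀ᶠ x : ℝ in atTop, x ^ (-(δ / 2)) ≤ 1 / 8 :=
      (tendsto_rpow_neg_atTop (by linarith : 0 < δ / 2)).eventually (eventually_le_nhds (by norm_num))
    have e3 : ∀ᶠ x : ℝ in atTop, ‖Real.log x‖ ≤ (1 / 2) * ‖x ^ κ‖ :=
      (isLittleO_log_rpow_atTop hκ).bound (by norm_num)
    have e4 : ∀ᶠ x : ℝ in atTop, (2 : ℝ) ≤ x ^ κ :=
      (tendsto_rpow_atTop hκ).eventually_ge_atTop 2
    filter_upwards [e1, e2, e3, e4, eventually_ge_atTop (1 : ℝ)] with x h1 h2 h3 h4 h5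
    refine ⟨h5, h1, h2, ?_⟩
    have h6 : 0 ≤ Real.log x := Real.log_nonneg h5
    rw [Real.norm_of_nonneg h6, Real.norm_of_nonneg (by positivity)] at h3
    have h7 : x ^ κ - 1 < (⌊x ^ κ⌋₊ : ℝ) := by
      have := Nat.lt_floor_add_one (x ^ κ)
      linarith
    linarith
  exact tendsto_natCast_atTop_atTop.eventually h1

theorem p_LOW (hRLO : Stmt_RLO) (hRBD : Stmt_RBD) (hSMJ : Stmt_SMJ) (hSMI : Stmt_SMI)
    (hGI : Stmt_GI) (hCHL : Stmt_CHL) (hPIU : Stmt_PIU) (hPNT : Stmt_PNT) : Stmt_LOW := by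
  classical
  intro a b θ κ δ ha hab hb hθ hθ1 hκ hκθ hδ
  obtain ⟨c₀, y₁, hc₀, hy₁, hchl⟩ := hCHL
  obtain ⟨Cg, hCg, hgi⟩ := hGI b (by linarith) hb
  obtain ⟨Cs, hCs, hsmi⟩ := hSMI a b ha hab hb.le
  obtain ⟨Cp, hCp, hpnt⟩ := hPNT a b ha hab hb
  obtain ⟨⟨y₂, hy₂, hcard⟩, hprod⟩ := hPIU
  -- choice of K
  obtain ⟨K, hK1, hK⟩ : ∃ K : ℕ, 1 ≤ K ∧ 4 / c₀ * (Cg / K) ≤ 1 / 9 := by
    obtain ⟨n, hn⟩ := exists_nat_ge (36 * Cg / c₀)
    refine ⟨n + 1, by omega, ?_⟩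
    have hn1 : (0 : ℝ) < ((n + 1 : ℕ) : ℝ) := by positivity
    rw [div_mul_div_comm, div_le_div_iff₀ (by positivity) (by norm_num)]
    have h2 : 36 * Cg ≤ n * c₀ := by rwa [div_le_iff₀ hc₀] at hn
    push_cast
    nlinarith
  have hKr : (1 : ℝ) ≤ K := by exact_mod_cast hK1
  have hlogK : 0 ≤ Real.log K := Real.log_nonneg hKr
  -- choice of y₀
  obtain ⟨y₃, hy₃⟩ : ∃ y₃ : ℝ, ∀ y : ℝ, y₃ ≤ y → 16 / c₀ ^ 2 * (Cs * Real.log y / y) ≤ 1 / 9 := by
    have h1 : Tendsto (fun y : ℝ => 16 / c₀ ^ 2 * (Cs * (Real.log y / y))) atTop (nhds 0) := by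
      have h2 : Tendsto (fun y : ℝ => Real.log y / y) atTop (nhds 0) := by
        have := Real.isLittleO_log_id_atTop.tendsto_div_nhds_zero
        simpa using this
      have h3 := (h2.const_mul Cs).const_mul (16 / c₀ ^ 2)
      simpa using h3
    have h4 := h1.eventually (eventually_le_nhds (show (0 : ℝ) < 1 / 9 by norm_num))
    obtain ⟨y₃, h5⟩ := eventually_atTop.mp h4
    refine ⟨y₃, fun y hy => ?_⟩
    have := h5 y hy
    rwa [← mul_div_assoc Cs] at this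
  obtain ⟨y₄, hy₄⟩ : ∃ y₄ : ℝ, ∀ y : ℝ, y₄ ≤ y → Cp + 1 ≤ c₀ / 4 * y ^ (1 - b) := by
    have h1 : Tendsto (fun y : ℝ => c₀ / 4 * y ^ (1 - b)) atTop atTop :=
      (tendsto_rpow_atTop (by linarith : 0 < 1 - b)).const_mul_atTop (by positivity)
    exact eventually_atTop.mp (h1.eventually_ge_atTop (Cp + 1))
  set y₀ : ℝ := max (max y₁ y₂) (max y₃ y₄) with hy₀
  have hy₀1 : y₁ ≤ y₀ := le_trans (le_max_left _ _) (le_max_left _ _)
  have hy₀2 : y₂ ≤ y₀ := le_trans (le_max_right _ _) (le_max_left _ _)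
  have hy₀3 : y₃ ≤ y₀ := le_trans (le_max_left _ _) (le_max_right _ _)
  have hy₀4 : y₄ ≤ y₀ := le_trans (le_max_right _ _) (le_max_right _ _)
  have hy₀0 : 3 ≤ y₀ := le_trans hy₁ hy₀1
  -- choice of c
  set c : ℝ := min (min (c₀ / 4) 1) (min (θ / (32 * K)) (δ / (6 * (Real.log K + 1)))) with hc
  have hcpos : 0 < c := by
    have : 0 < Real.log K + 1 := by linarith
    have hK0 : (0 : ℝ) < K := by linarith
    simp only [hc, lt_min_iff]
    refine ⟨⟨by positivity, by norm_num⟩, by positivity, by positivity⟩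
  have hcc : c ≤ c₀ / 4 := le_trans (min_le_left _ _) (min_le_left _ _)
  have hc1 : c ≤ 1 := le_trans (min_le_left _ _) (min_le_right _ _)
  have hcθ : 2 * K * c ≤ θ / 16 := by
    have h1 : c ≤ θ / (32 * K) := le_trans (min_le_right _ _) (min_le_left _ _)
    rw [le_div_iff₀ (by positivity)] at h1
    linarith
  have hcδ : 3 * c * Real.log K ≤ δ / 2 := by
    have h1 : c ≤ δ / (6 * (Real.log K + 1)) := le_trans (min_le_right _ _) (min_le_right _ _)
    rw [le_div_iff₀ (by positivity)] at h1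
    nlinarith
  refine ⟨c, 3 * Real.log K + 1, y₀, hcpos, by positivity, hy₀0, ?_⟩
  filter_upwards [low_ev θ κ δ hθ hκ hδ] with T hT
  obtain ⟨hT1, hT2, hT3, hT4⟩ := hT
  intro H hH y w Bad hy hyc hw hBad
  have hTpos : (0 : ℝ) < T := by linarith
  have hy3 : 3 ≤ y := le_trans hy₀0 hy
  have hlT : 0 ≤ Real.log T := Real.log_nonneg hT1
  have hlogy : 1 ≤ Real.log y := by
    rw [Real.le_log_iff_exp_le (by linarith)]
    have := Real.exp_one_lt_d9
    linarith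
  set m : ℕ := (PY y).card with hm
  have hmle : (m : ℝ) ≤ 3 * y / Real.log y := hcard y (le_trans hy₀2 hy)
  set X : ℕ := ⌊(T : ℝ) ^ κ⌋₊ with hX
  have hyX : y ≤ X := by
    have : c * Real.log T ≤ 1 * Real.log T := mul_le_mul_of_nonneg_right hc1 hlT
    linarith
  have hX1 : 1 ≤ X := by
    have : (1 : ℝ) ≤ X := by linarith
    exact_mod_cast this
  set M : ℕ := ⌈(T : ℝ) ^ (θ / 4)⌉₊ with hM
  have hprodT : ((∏ p ∈ PY y, p ^ K : ℕ) : ℝ) ≤ (T : ℝ) ^ (θ / 16) := by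
    refine le_trans (hprod y K (by linarith)) ?_
    rw [Real.rpow_def_of_pos hTpos]
    apply Real.exp_le_exp.mpr
    have h1 : 2 * K * y ≤ 2 * K * (c * Real.log T) :=
      mul_le_mul_of_nonneg_left hyc (by positivity)
    have h2 : 2 * K * c * Real.log T ≤ θ / 16 * Real.log T :=
      mul_le_mul_of_nonneg_right hcθ hlT
    linarith
  have hXT : (X : ℝ) ≤ (T : ℝ) ^ (θ / 16) := by
    refine le_trans (Nat.floor_le (by positivity)) ?_
    exact Real.rpow_le_rpow_of_exponent_le hT1 hκθ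
  have hMT : (T : ℝ) ^ (θ / 4) ≤ M := Nat.le_ceil _
  have hXM : X * ∏ p ∈ PY y, p ^ K ≤ M := by
    have h1 : ((X * ∏ p ∈ PY y, p ^ K : ℕ) : ℝ) ≤ (M : ℝ) := by
      rw [Nat.cast_mul]
      calc (X : ℝ) * ((∏ p ∈ PY y, p ^ K : ℕ) : ℝ)
          ≤ (T : ℝ) ^ (θ / 16) * (T : ℝ) ^ (θ / 16) :=
            mul_le_mul hXT hprodT (by positivity) (by positivity)
        _ = (T : ℝ) ^ (θ / 16 + θ / 16) := (Real.rpow_add hTpos _ _).symm
        _ ≤ (T : ℝ) ^ (θ / 4) := Real.rpow_le_rpow_of_exponent_le hT1 (by linarith)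
        _ ≤ M := hMT
    exact_mod_cast h1
  have hPM : ∏ p ∈ PY y, p ^ K ≤ M := le_trans (Nat.le_mul_of_pos_left _ hX1) hXM
  -- Er M
  have hM1 : (1 : ℝ) ≤ (T : ℝ) ^ (θ / 4) := Real.one_le_rpow hT1 (by linarith)
  have hMle : (M : ℝ) ≤ 2 * (T : ℝ) ^ (θ / 4) := by
    have := Nat.ceil_lt_add_one (show 0 ≤ (T : ℝ) ^ (θ / 4) by positivity)
    linarith
  have hMr1 : (1 : ℝ) ≤ M := le_trans hM1 hMT
  have hlogM : Real.log M ≤ M - 1 := Real.log_le_sub_one_of_pos (by linarith)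
  have hlogM0 : 0 ≤ Real.log M := Real.log_nonneg hMr1
  have hEr0 : 0 ≤ Er M := by unfold Er; positivity
  have hErH : Er M ≤ H / 8 := by
    have h1 : Er M ≤ 4 * M ^ 2 := by
      unfold Er
      nlinarith
    have h2 : (M : ℝ) ^ 2 ≤ 4 * (T : ℝ) ^ (θ / 2) := by
      have h3 : (M : ℝ) ^ 2 ≤ (2 * (T : ℝ) ^ (θ / 4)) ^ 2 := by gcongr
      have h4 : ((T : ℝ) ^ (θ / 4)) ^ 2 = (T : ℝ) ^ (θ / 2) := by
        rw [← Real.rpow_natCast, ← Real.rpow_mul hTpos.le]
        congr 1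
        push_cast
        ring
      nlinarith
    have h5 : (T : ℝ) ^ (θ / 2) * (T : ℝ) ^ (θ / 2) = (T : ℝ) ^ θ := by
      rw [← Real.rpow_add hTpos]
      congr 1
      ring
    have h6 : 0 < (T : ℝ) ^ (θ / 2) := by positivity
    nlinarith
  have hH0 : (0 : ℝ) < H := lt_of_lt_of_le (by positivity) hH
  -- the functions
  set f : ℝ → ℝ := fun t => ‖RR w (PY y) K t‖ ^ 2 with hfdef
  set g : ℝ → ℝ := fun t => 4 / c₀ * G1 b y w t + 16 / c₀ ^ 2 * SS (QY y X) a b y t with hgdef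
  obtain ⟨hRc, hRb, -⟩ := hRBD w (PY y) K hw
  have hAB : (T : ℝ) ≤ (T : ℝ) + H := by linarith
  obtain ⟨hGc, hG0, hGint⟩ := hgi w y K M T (T + H) hw hy3 hK1 hPM hAB
  obtain ⟨hSc, hS0, hSle⟩ := hSMJ (QY y X) a b y hab
  have hSint := hsmi w y X K M T (T + H) hw hy3 hK1 hX1 hXM hAB
  have hPprime : ∀ p ∈ PY y, p.Prime := fun p hp => (Finset.mem_filter.mp hp).2
  have hRlow := hRLO w (PY y) K M T (T + H) hw hPprime hK1 hPM hAB
  have hfc : Continuous f := (hRc.norm).pow 2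
  have hgc : Continuous g := (hGc.const_mul _).add (hSc.const_mul _)
  have hg0 : ∀ t, 0 ≤ g t := fun t => by
    have h1 := hG0 t
    have h2 := hS0 t
    simp only [hgdef]
    positivity
  set Km : ℝ := (K : ℝ) ^ m with hKm
  have hKm1 : 1 ≤ Km := one_le_pow₀ hKr
  have hfV : ∀ t, f t ≤ Km ^ 2 := fun t => by
    simp only [hfdef]
    exact pow_le_pow_left₀ (norm_nonneg _) (hRb t) 2
  have hI1 : ((H : ℝ) - Er M) * Km ≤ ∫ t in (T : ℝ)..((T : ℝ) + H), f t := by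
    have h1 : (T : ℝ) + H - T = H := by ring
    rw [h1] at hRlow
    exact hRlow
  have hI2 : ∫ t in (T : ℝ)..((T : ℝ) + H), f t * g t ≤ ((H : ℝ) + Er M) * Km * (2 / 9) := by
    have h1 : (T : ℝ) + H - T = H := by ring
    rw [h1] at hGint hSint
    have h2 : ∫ t in (T : ℝ)..((T : ℝ) + H), f t * g t =
        4 / c₀ * (∫ t in (T : ℝ)..((T : ℝ) + H), ‖RR w (PY y) K t‖ ^ 2 * G1 b y w t) +
        16 / c₀ ^ 2 * ∫ t in (T : ℝ)..((T : ℝ) + H), ‖RR w (PY y) K t‖ ^ 2 *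
          SS (QY y X) a b y t := by
      rw [← intervalIntegral.integral_const_mul, ← intervalIntegral.integral_const_mul,
        ← intervalIntegral.integral_add]
      · congr 1
        funext t
        simp only [hfdef, hgdef]
        ring
      · exact (((hRc.norm).pow 2).mul hGc).const_mul _ |>.intervalIntegrable _ _
      · exact (((hRc.norm).pow 2).mul hSc).const_mul _ |>.intervalIntegrable _ _
    rw [h2]
    have hHE : 0 ≤ ((H : ℝ) + Er M) * Km := by positivity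
    have h3 : 4 / c₀ * (∫ t in (T : ℝ)..((T : ℝ) + H), ‖RR w (PY y) K t‖ ^ 2 * G1 b y w t) ≤
        ((H : ℝ) + Er M) * Km * (1 / 9) := by
      calc _ ≤ 4 / c₀ * (((H : ℝ) + Er M) * Km * (Cg / K)) :=
            mul_le_mul_of_nonneg_left hGint (by positivity)
        _ = ((H : ℝ) + Er M) * Km * (4 / c₀ * (Cg / K)) := by ring
        _ ≤ _ := mul_le_mul_of_nonneg_left hK hHE
    have h4 : 16 / c₀ ^ 2 * (∫ t in (T : ℝ)..((T : ℝ) + H), ‖RR w (PY y) K t‖ ^ 2 *
        SS (QY y X) a b y t) ≤ ((H : ℝ) + Er M) * Km * (1 / 9) := by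
      calc _ ≤ 16 / c₀ ^ 2 * (((H : ℝ) + Er M) * Km * (Cs * Real.log y / y)) :=
            mul_le_mul_of_nonneg_left hSint (by positivity)
        _ = ((H : ℝ) + Er M) * Km * (16 / c₀ ^ 2 * (Cs * Real.log y / y)) := by ring
        _ ≤ _ := mul_le_mul_of_nonneg_left (hy₃ y (le_trans hy₀3 hy)) hHE
    linarith
  -- the size of `K ^ m`
  have hKexp : Km = Real.exp (m * Real.log K) := by
    rw [hKm, ← Real.rpow_natCast, Real.rpow_def_of_pos (by linarith)]
    ring_nf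
  have hyl : m * Real.log K ≤ 3 * Real.log K * (y / Real.log y) := by
    calc m * Real.log K ≤ 3 * y / Real.log y * Real.log K :=
          mul_le_mul_of_nonneg_right hmle hlogK
      _ = _ := by ring
  have hdivle : y / Real.log y ≤ y := div_le_self (by linarith) hlogy
  have hβ : (T : ℝ) ^ (-δ) * Km ≤ 1 / 8 := by
    have h1 : m * Real.log K ≤ δ / 2 * Real.log T := by
      calc m * Real.log K ≤ 3 * Real.log K * (y / Real.log y) := hyl
        _ ≤ 3 * Real.log K * (c * Real.log T) := by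
            apply mul_le_mul_of_nonneg_left (le_trans hdivle hyc) (by positivity)
        _ = 3 * c * Real.log K * Real.log T := by ring
        _ ≤ _ := mul_le_mul_of_nonneg_right hcδ hlT
    have h2 : Km ≤ (T : ℝ) ^ (δ / 2) := by
      rw [hKexp, Real.rpow_def_of_pos hTpos]
      apply Real.exp_le_exp.mpr
      linarith
    calc (T : ℝ) ^ (-δ) * Km ≤ (T : ℝ) ^ (-δ) * (T : ℝ) ^ (δ / 2) :=
          mul_le_mul_of_nonneg_left h2 (by positivity)
      _ = (T : ℝ) ^ (-(δ / 2)) := by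
          rw [← Real.rpow_add hTpos]
          congr 1
          ring
      _ ≤ 1 / 8 := hT3
  obtain ⟨G, hG1, hG2, hG3⟩ := low_core T H Bad f g (Er M) Km ((T : ℝ) ^ (-δ)) hfc hgc
    (fun t => by simp only [hfdef]; positivity) hg0 (by linarith) hfV hI1 hI2 hErH hBad hβ
  refine ⟨G, hG1, ?_, ?_⟩
  · -- cardinality
    have hgoal : Real.exp (-((3 * Real.log K + 1) * y / Real.log y)) * Km ≤ 1 / 2 := by
      rw [hKexp, ← Real.exp_add]
      have h1 : (1 : ℝ) ≤ y / Real.log y := by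
        rw [le_div_iff₀ (by linarith)]
        have := Real.log_le_sub_one_of_pos (show (0 : ℝ) < y by linarith)
        linarith
      have h2 : -((3 * Real.log K + 1) * y / Real.log y) + m * Real.log K ≤ -1 := by
        have : (3 * Real.log K + 1) * y / Real.log y =
            3 * Real.log K * (y / Real.log y) + y / Real.log y := by ring
        rw [this]
        linarith
      calc Real.exp (-((3 * Real.log K + 1) * y / Real.log y) + m * Real.log K)
          ≤ Real.exp (-1) := Real.exp_le_exp.mpr h2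
        _ ≤ 1 / 2 := by
            rw [Real.exp_neg, inv_eq_one_div]
            apply one_div_le_one_div_of_le (by norm_num)
            have := Real.exp_one_gt_d9
            linarith
    have hKm0 : 0 < Km := by linarith
    have h3 : (H : ℝ) * Real.exp (-((3 * Real.log K + 1) * y / Real.log y)) * Km ≤
        (G.card : ℝ) * Km := by
      calc (H : ℝ) * Real.exp (-((3 * Real.log K + 1) * y / Real.log y)) * Km
          = H * (Real.exp (-((3 * Real.log K + 1) * y / Real.log y)) * Km) := by ring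
        _ ≤ H * (1 / 2) := mul_le_mul_of_nonneg_left hgoal hH0.le
        _ = H / 2 := by ring
        _ ≤ _ := hG2
    exact le_of_mul_le_mul_right h3 hKm0
  · -- the points
    intro n hn
    obtain ⟨t, ht, hgt⟩ := hG3 n hn
    refine ⟨t, ht, fun σ hσ => ?_⟩
    have hG0t := hG0 t
    have hS0t := hS0 t
    have hg1 : 4 / c₀ * G1 b y w t < 1 := by
      have : 0 ≤ 16 / c₀ ^ 2 * SS (QY y X) a b y t := by positivity
      simp only [hgdef] at hgt
      linarith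
    have hg2 : 16 / c₀ ^ 2 * SS (QY y X) a b y t < 1 := by
      have : 0 ≤ 4 / c₀ * G1 b y w t := by positivity
      simp only [hgdef] at hgt
      linarith
    have hG1t : G1 b y w t ≤ c₀ / 4 := by
      rw [div_mul_eq_mul_div, div_lt_one hc₀] at hg1
      linarith
    have hPSt : ‖PS (QY y X) y σ t‖ ≤ c₀ / 4 := by
      have h1 := hSle σ hσ t
      rw [div_mul_eq_mul_div, div_lt_one (by positivity)] at hg2
      have h2 : ‖PS (QY y X) y σ t‖ ^ 2 ≤ (c₀ / 4) ^ 2 := by nlinarith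
      exact (pow_le_pow_iff_left₀ (norm_nonneg _) (by positivity) (by norm_num)).mp h2
    have hmain := hpnt w y X hw hy3 hyX σ hσ t
    have hch := hchl y (le_trans hy₀1 hy) σ (by linarith [hσ.1])
    have hypow : 0 < y ^ (1 - σ) := by positivity
    have hyb : y ^ (1 - b) ≤ y ^ (1 - σ) :=
      Real.rpow_le_rpow_of_exponent_le (by linarith) (by linarith [hσ.2])
    have hbig := hy₄ y (le_trans hy₀4 hy)
    have h1 : y ^ (1 - σ) * G1 b y w t ≤ y ^ (1 - σ) * (c₀ / 4) :=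
      mul_le_mul_of_nonneg_left hG1t hypow.le
    have h2 : y ^ (1 - σ) * ‖PS (QY y X) y σ t‖ ≤ y ^ (1 - σ) * (c₀ / 4) :=
      mul_le_mul_of_nonneg_left hPSt hypow.le
    have h3 : c * y ^ (1 - σ) ≤ c₀ / 4 * y ^ (1 - σ) :=
      mul_le_mul_of_nonneg_right hcc hypow.le
    have h4 : c₀ / 4 * y ^ (1 - b) ≤ c₀ / 4 * y ^ (1 - σ) :=
      mul_le_mul_of_nonneg_left hyb (by positivity)
    linarith

end Pool.LDV
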