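import Pool.Agent.Work.MP_e9b29d_ld.Interface

/-! # Block MVG (helper69): two sided mean value theorem -/

set_option autoImplicit false

namespace Pool.LDV

open Finset Filter MeasureTheory Complex Pool.Agent.Work.MP_e9b29d_nt
open scoped ComplexConjugate

theorem MVG_two (S : Finset ℕ) (c : ℕ → ℂ) (l : ℕ → ℝ) {a b : ℝ} (hab : a ≤ b) {R : ℝ}
    (hl : ∀ j ∈ S, ∀ k ∈ S, j ≠ k → l j ≠ l k)
    (hR : ∀ j ∈ S, ∑ k ∈ S.erase j, 2 / |l j - l k| ≤ R) :
    |(∫ t in a..b, ‖ES S c l t‖ ^ 2) - (b - a) * ∑ j ∈ S, ‖c j‖ ^ 2| ≤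
      R * ∑ j ∈ S, ‖c j‖ ^ 2 := by
  classical
  set w : ℕ → ℕ → ℝ := fun j k => if j = k then 0 else 2 / |l j - l k| with hw
  have hw0 : ∀ j k, 0 ≤ w j k := by
    intro j k
    simp only [hw]
    split_ifs
    · exact le_rfl
    · positivity
  have hsymm : ∀ j k, w j k = w k j := by
    intro j k
    simp only [hw]
    by_cases h : j = k
    · simp [h]
    · rw [if_neg h, if_neg (Ne.symm h), abs_sub_comm]
  have h1 : ((∫ t in a..b, ‖ES S c l t‖ ^ 2 : ℝ) : ℂ) = ∑ j ∈ S, ∑ k ∈ S,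
      c j * conj (c k) * ∫ t in a..b, cexp ((((l j - l k) * t : ℝ) : ℂ) * I) := by
    rw [← intervalIntegral.integral_ofReal]
    simp_rw [norm_sq_ES]
    rw [intervalIntegral.integral_finsetSum]
    · refine Finset.sum_congr rfl fun j _ => ?_
      rw [intervalIntegral.integral_finsetSum]
      · refine Finset.sum_congr rfl fun k _ => ?_
        rw [intervalIntegral.integral_const_mul]
      · intro k _
        apply Continuous.intervalIntegrable
        fun_prop
    · intro j _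
      apply Continuous.intervalIntegrable
      fun_prop
  have hdiag : (((b - a) * ∑ j ∈ S, ‖c j‖ ^ 2 : ℝ) : ℂ) = ∑ j ∈ S, ∑ k ∈ S,
      (if j = k then c j * conj (c k) * ∫ t in a..b, cexp ((((l j - l k) * t : ℝ) : ℂ) * I)
        else 0) := by
    rw [Finset.mul_sum]
    push_cast
    refine Finset.sum_congr rfl fun j hj => ?_
    rw [Finset.sum_ite_eq, if_pos hj]
    simp only [sub_self, zero_mul, Complex.ofReal_zero, Complex.exp_zero,
      intervalIntegral.integral_const]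
    rw [Complex.mul_conj, Complex.normSq_eq_norm_sq, Complex.real_smul]
    push_cast
    ring
  have h2 : (((∫ t in a..b, ‖ES S c l t‖ ^ 2) - (b - a) * ∑ j ∈ S, ‖c j‖ ^ 2 : ℝ) : ℂ) =
      ∑ j ∈ S, ∑ k ∈ S, (if j = k then 0 else
        c j * conj (c k) * ∫ t in a..b, cexp ((((l j - l k) * t : ℝ) : ℂ) * I)) := by
    rw [Complex.ofReal_sub, h1, hdiag, ← Finset.sum_sub_distrib]
    refine Finset.sum_congr rfl fun j _ => ?_
    rw [← Finset.sum_sub_distrib]
    refine Finset.sum_congr rfl fun k _ => ?_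
    split_ifs <;> simp
  have h3 : |(∫ t in a..b, ‖ES S c l t‖ ^ 2) - (b - a) * ∑ j ∈ S, ‖c j‖ ^ 2| ≤
      ∑ j ∈ S, ∑ k ∈ S, ‖c j‖ * ‖c k‖ * w j k := by
    rw [← Real.norm_eq_abs, ← Complex.norm_real, h2]
    refine (norm_sum_le _ _).trans (Finset.sum_le_sum fun j hj => ?_)
    refine (norm_sum_le _ _).trans (Finset.sum_le_sum fun k hk => ?_)
    simp only [hw]
    split_ifs with h
    · simp
    · rw [norm_mul, norm_mul, Complex.norm_conj]
      exact mul_le_mul_of_nonneg_left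
        (norm_integral_exp_le (sub_ne_zero.2 (hl j hj k hk h)) a b) (by positivity)
  refine h3.trans ?_
  have h5 : ∑ j ∈ S, ∑ k ∈ S, ‖c j‖ * ‖c k‖ * w j k ≤
      ∑ j ∈ S, ∑ k ∈ S, (‖c j‖ ^ 2 * w j k / 2 + ‖c k‖ ^ 2 * w j k / 2) := by
    refine Finset.sum_le_sum fun j _ => Finset.sum_le_sum fun k _ => ?_
    nlinarith [hw0 j k, mul_nonneg (sq_nonneg (‖c j‖ - ‖c k‖)) (hw0 j k)]
  refine h5.trans ?_
  simp_rw [Finset.sum_add_distrib]
  have h6 : ∑ j ∈ S, ∑ k ∈ S, ‖c k‖ ^ 2 * w j k / 2 = ∑ j ∈ S, ∑ k ∈ S, ‖c j‖ ^ 2 * w j k / 2 := by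
    rw [Finset.sum_comm]
    refine Finset.sum_congr rfl fun j _ => Finset.sum_congr rfl fun k _ => ?_
    rw [hsymm]
  rw [h6, ← Finset.sum_add_distrib, Finset.mul_sum]
  refine Finset.sum_le_sum fun j hj => ?_
  rw [← Finset.sum_add_distrib]
  have h7 : ∑ k ∈ S, (‖c j‖ ^ 2 * w j k / 2 + ‖c j‖ ^ 2 * w j k / 2) =
      (∑ k ∈ S, w j k) * ‖c j‖ ^ 2 := by
    rw [Finset.sum_mul]
    refine Finset.sum_congr rfl fun k _ => ?_
    ring
  rw [h7]
  apply mul_le_mul_of_nonneg_right _ (by positivity)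
  rw [← Finset.add_sum_erase _ _ hj]
  have h8 : w j j = 0 := by simp [hw]
  have h9 : ∑ k ∈ S.erase j, w j k = ∑ k ∈ S.erase j, 2 / |l j - l k| := by
    refine Finset.sum_congr rfl fun k hk => ?_
    simp only [hw]
    rw [if_neg (Finset.ne_of_mem_erase hk).symm]
  rw [h8, h9]
  linarith [hR j hj]

theorem p_MVG : Stmt_MVG := by
  classical
  intro ι _ m c M A B hinj hm hAB
  rcases isEmpty_or_nonempty ι with hι | hι
  · simp
  set S : Finset ℕ := univ.image m with hS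
  set g : ℕ → ℂ := fun n => ∑ i, if m i = n then c i else 0 with hg
  have hgm : ∀ i, g (m i) = c i := by
    intro i
    simp only [hg]
    rw [Finset.sum_eq_single i]
    · simp
    · intro j _ hji
      rw [if_neg (fun h => hji (hinj h))]
    · intro h
      exact absurd (mem_univ i) h
  have hES : ∀ t : ℝ, ∑ i, c i * ee (m i) t = ES S g (fun n => -Real.log n) t := by
    intro t
    unfold ES
    rw [hS, Finset.sum_image (fun i _ j _ h => hinj h)]
    refine Finset.sum_congr rfl fun i _ => ?_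
    rw [hgm]
    rfl
  have hsq : ∑ i, ‖c i‖ ^ 2 = ∑ j ∈ S, ‖g j‖ ^ 2 := by
    rw [hS, Finset.sum_image (fun i _ j _ h => hinj h)]
    refine Finset.sum_congr rfl fun i _ => ?_
    rw [hgm]
  have hSs : S ⊆ Icc 1 M := by
    intro n hn
    rw [hS, mem_image] at hn
    obtain ⟨i, -, rfl⟩ := hn
    exact mem_Icc.2 (hm i)
  have hM : 1 ≤ M := (hm hι.some).1.trans (hm hι.some).2
  simp_rw [hES]
  rw [hsq]
  unfold Er
  apply MVG_two S g _ hAB
  · intro j hj k hk hne h
    have hj1 := Finset.mem_Icc.1 (hSs hj)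
    have hk1 := Finset.mem_Icc.1 (hSs hk)
    have hj0 : (0 : ℝ) < j := by exact_mod_cast hj1.1
    have hk0 : (0 : ℝ) < k := by exact_mod_cast hk1.1
    have h1 : Real.log j = Real.log k := by linarith
    have h2 := Real.log_injOn_pos (Set.mem_Ioi.2 hj0) (Set.mem_Ioi.2 hk0) h1
    exact hne (by exact_mod_cast h2)
  · intro j hj
    exact gap_sum_log hM hSs hj

end Pool.LDV
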