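import Pool.Agent.Work.MP_e9b29d_ld.Interface

/-! Block PIU: the number of primes up to `y`, and their product. -/

set_option autoImplicit false

namespace Pool.LDV

open Finset Filter MeasureTheory Pool.Agent.Work.MP_e9b29d_nt

theorem PIU_PY (y : ℝ) : PY y = Nat.primesLE ⌊y⌋₊ := by
  ext p
  simp only [PY, Nat.primesLE_eq_filter_range, mem_filter, mem_Icc, mem_range]
  constructor
  · rintro ⟨⟨_, h⟩, hp⟩
    exact ⟨by omega, hp⟩
  · rintro ⟨h, hp⟩
    exact ⟨⟨hp.one_lt.le, by omega⟩, hp⟩

theorem PIU_log4 : Real.log 4 < 2 := by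
  have h : Real.log 4 = 2 * Real.log 2 := by
    rw [show (4 : ℝ) = 2 ^ 2 by norm_num, Real.log_pow]
    norm_num
  have := Real.log_two_lt_d9
  rw [h]
  linarith

theorem p_PIU : Stmt_PIU := by
  refine ⟨?_, ?_⟩
  · obtain ⟨y₀, h⟩ := eventually_atTop.mp
      (Chebyshev.eventually_primeCounting_le (ε := 1) one_pos)
    refine ⟨max y₀ 3, le_max_right _ _, fun y hy => ?_⟩
    have h1 := h y (le_trans (le_max_left _ _) hy)
    have hy3 : (3 : ℝ) ≤ y := le_trans (le_max_right _ _) hy
    rw [PIU_PY, Nat.primesLE_card_eq_primeCounting]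
    refine h1.trans ?_
    have hlog : 0 < Real.log y := Real.log_pos (by linarith)
    have := PIU_log4
    gcongr
    linarith
  · intro y K hy
    have h1 : ((∏ p ∈ PY y, p ^ K : ℕ) : ℝ) = Real.exp (K * Chebyshev.theta y) := by
      rw [Chebyshev.theta_eq_sum_primesLE, ← PIU_PY, mul_sum, Real.exp_sum]
      push_cast
      refine prod_congr rfl fun p hp => ?_
      have hp0 : (0 : ℝ) < p := by
        have := (mem_filter.mp hp).2.pos
        exact_mod_cast this
      rw [mul_comm, Real.exp_mul, Real.exp_log hp0, Real.rpow_natCast]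
    rw [h1]
    apply Real.exp_le_exp.mpr
    have h2 := Chebyshev.theta_le_log4_mul_x hy
    have h3 : Chebyshev.theta y ≤ 2 * y := h2.trans (by
      have := PIU_log4
      gcongr)
    calc (K : ℝ) * Chebyshev.theta y ≤ K * (2 * y) := by gcongr
      _ = 2 * K * y := by ring

end Pool.LDV
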