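import Pool.Agent.Work.MP_e9b29d_ld.Interface

/-! # Block PMV (helper69): mean value of a product over primes -/

set_option autoImplicit false

namespace Pool.LDV

open Finset Filter MeasureTheory Complex Pool.Agent.Work.MP_e9b29d_nt

theorem ee_mul {m n : ℕ} (hm : m ≠ 0) (hn : n ≠ 0) (t : ℝ) : ee (m * n) t = ee m t * ee n t := by
  unfold ee
  have hm' : (m : ℝ) ≠ 0 := by exact_mod_cast hm
  have hn' : (n : ℝ) ≠ 0 := by exact_mod_cast hn
  rw [Nat.cast_mul, Real.log_mul hm' hn', ← Complex.exp_add]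
  congr 1
  push_cast
  ring

theorem ee_pow (n k : ℕ) (t : ℝ) : ee (n ^ k) t = ee n t ^ k := by
  unfold ee
  rw [Nat.cast_pow, Real.log_pow, ← Complex.exp_nat_mul]
  congr 1
  push_cast
  ring

theorem ee_one (t : ℝ) : ee 1 t = 1 := by
  unfold ee
  simp

theorem ee_prod {ι : Type} (s : Finset ι) (g : ι → ℕ) (h : ∀ i ∈ s, g i ≠ 0) (t : ℝ) :
    ee (∏ i ∈ s, g i) t = ∏ i ∈ s, ee (g i) t := by
  classical
  induction s using Finset.induction_on with
  | empty => simp [ee_one]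
  | insert i s hi ih =>
    rw [Finset.prod_insert hi, Finset.prod_insert hi, ee_mul (h i (mem_insert_self _ _))
      (Finset.prod_ne_zero_iff.2 fun j hj => h j (mem_insert_of_mem hj)),
      ih fun j hj => h j (mem_insert_of_mem hj)]

/-- the integer of a pair (exponents, cofactor) -/
def PMVm (P Q : Finset ℕ) (K : ℕ) (x : ((p : ↥P) → Fin (K + 1)) × ↥Q) : ℕ :=
  (x.2 : ℕ) * ∏ p : ↥P, (p : ℕ) ^ (x.1 p : ℕ)

theorem PMV_fac (P : Finset ℕ) (hP : ∀ p ∈ P, p.Prime) (K : ℕ) (f : (p : ↥P) → Fin (K + 1))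
    (v : ↥P) : (∏ p : ↥P, (p : ℕ) ^ (f p : ℕ)).factorization v = (f v : ℕ) := by
  classical
  rw [Nat.factorization_prod (fun (p : ↥P) _ => pow_ne_zero _ (hP p p.2).ne_zero), Finsupp.finset_sum_apply,
    Finset.sum_eq_single v]
  · rw [(hP v v.2).factorization_pow]
    simp
  · intro p _ hpv
    rw [(hP p p.2).factorization_pow, Finsupp.single_apply, if_neg]
    intro h
    exact hpv (Subtype.ext h)
  · intro h
    exact absurd (mem_univ v) h

theorem PMV_inj (P Q : Finset ℕ) (K : ℕ) (hP : ∀ p ∈ P, p.Prime)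
    (hQ : ∀ q ∈ Q, 1 ≤ q ∧ ∀ p ∈ P, ¬ p ∣ q) : Function.Injective (PMVm P Q K) := by
  classical
  have key : ∀ (x : ((p : ↥P) → Fin (K + 1)) × ↥Q) (v : ↥P),
      (PMVm P Q K x).factorization v = (x.1 v : ℕ) := by
    intro x v
    have hq := hQ x.2 x.2.2
    unfold PMVm
    rw [Nat.factorization_mul (show (x.2 : ℕ) ≠ 0 by omega)
      (Finset.prod_ne_zero_iff.2 fun (p : ↥P) _ => pow_ne_zero _ (hP p p.2).ne_zero), Finsupp.add_apply,
      PMV_fac P hP, Nat.factorization_eq_zero_of_not_dvd (hq.2 v v.2), zero_add]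
  intro x y hxy
  have h1 : x.1 = y.1 := by
    funext v
    have := key x v
    rw [hxy, key y v] at this
    exact Fin.ext this.symm
  have h2 : x.2 = y.2 := by
    unfold PMVm at hxy
    rw [h1] at hxy
    have hpos : 0 < ∏ p : ↥P, (p : ℕ) ^ (y.1 p : ℕ) :=
      Finset.prod_pos fun p _ => pow_pos (hP p p.2).pos _
    exact Subtype.ext (Nat.eq_of_mul_eq_mul_right hpos hxy)
  exact Prod.ext h1 h2

theorem PMV_expand {R : Type} [CommSemiring R] (P Q : Finset ℕ) (K : ℕ) (a : ℕ → ℕ → R)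
    (b : ℕ → R) :
    (∏ p ∈ P, ∑ j ∈ range (K + 1), a p j) * ∑ q ∈ Q, b q =
      ∑ x : ((p : ↥P) → Fin (K + 1)) × ↥Q, (∏ p : ↥P, a p (x.1 p : ℕ)) * b x.2 := by
  classical
  rw [Fintype.sum_prod_type, ← Finset.prod_coe_sort P (fun p => ∑ j ∈ range (K + 1), a p j),
    ← Finset.sum_coe_sort Q b]
  have h1 : ∀ p : ↥P, ∑ j ∈ range (K + 1), a p j = ∑ j : Fin (K + 1), a p j := by
    intro p
    rw [Finset.sum_range]
  simp_rw [h1]
  rw [Finset.prod_univ_sum, Fintype.piFinset_univ, Finset.sum_mul]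
  refine Finset.sum_congr rfl fun f _ => ?_
  rw [Finset.mul_sum]

theorem p_PMV (h1 : Stmt_MVG) : Stmt_PMV := by
  classical
  intro P Q K M a b A B hP hQ hM hAB
  set c : (((p : ↥P) → Fin (K + 1)) × ↥Q) → ℂ := fun x => (∏ p : ↥P, a p (x.1 p : ℕ)) * b x.2
    with hc
  have hmain := h1 (((p : ↥P) → Fin (K + 1)) × ↥Q) (PMVm P Q K) c M A B (PMV_inj P Q K hP hQ) ?_ hAB
  · have e1 : ∀ t : ℝ, (∏ p ∈ P, ∑ j ∈ range (K + 1), a p j * ee p t ^ j) *
        ∑ q ∈ Q, b q * ee q t = ∑ i, c i * ee (PMVm P Q K i) t := by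
      intro t
      rw [PMV_expand P Q K (fun p j => a p j * ee p t ^ j) (fun q => b q * ee q t)]
      refine Finset.sum_congr rfl fun x _ => ?_
      have hq := hQ x.2 x.2.2
      have e2 : ee (PMVm P Q K x) t = ee x.2 t * ∏ p : ↥P, ee p t ^ (x.1 p : ℕ) := by
        unfold PMVm
        rw [ee_mul (show (x.2 : ℕ) ≠ 0 by omega)
          (Finset.prod_ne_zero_iff.2 fun (p : ↥P) _ => pow_ne_zero _ (hP p p.2).ne_zero),
          ee_prod _ _ (fun (p : ↥P) _ => pow_ne_zero _ (hP p p.2).ne_zero)]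
        simp_rw [ee_pow]
      rw [e2, hc, Finset.prod_mul_distrib]
      ring
    have e3 : (∏ p ∈ P, ∑ j ∈ range (K + 1), ‖a p j‖ ^ 2) * ∑ q ∈ Q, ‖b q‖ ^ 2 =
        ∑ i, ‖c i‖ ^ 2 := by
      rw [PMV_expand P Q K (fun p j => ‖a p j‖ ^ 2) (fun q => ‖b q‖ ^ 2)]
      refine Finset.sum_congr rfl fun x _ => ?_
      rw [hc, norm_mul, mul_pow, norm_prod, Finset.prod_pow]
    simp_rw [e1]
    rw [e3]
    exact hmain
  · intro x
    have hq := hQ x.2 x.2.2
    have hpos : 0 < ∏ p : ↥P, (p : ℕ) ^ (x.1 p : ℕ) :=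
      Finset.prod_pos fun p _ => pow_pos (hP p p.2).pos _
    refine ⟨?_, ?_⟩
    · unfold PMVm
      exact Nat.mul_pos hq.1 hpos
    · refine le_trans ?_ (hM x.2 x.2.2)
      unfold PMVm
      apply Nat.mul_le_mul_left
      rw [← Finset.prod_coe_sort P (fun p => p ^ K)]
      apply Finset.prod_le_prod'
      intro p _
      exact Nat.pow_le_pow_right (hP p p.2).pos (by have := (x.1 p).2; omega)

end Pool.LDV
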