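import Pool.Agent.Work.MP_e9b29d_ld.Interface

/-! # Block PNT (helper65): the value of `DD` where both majorants are small -/

set_option autoImplicit false

namespace Pool.LDV

open Finset Filter MeasureTheory Pool.Agent.Work.MP_e9b29d_nt

lemma PNT_split (y : ℝ) (X : ℕ) (hy : 3 ≤ y) (hyX : y ≤ X) (g : ℕ → ℂ) :
    ∑ n ∈ (Ioc 0 X).filter (fun n : ℕ => n.Prime), g n =
      ∑ p ∈ PY y, g p + ∑ p ∈ QY y X, g p := by
  classical
  have hdis : Disjoint (PY y) (QY y X) := by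
    rw [Finset.disjoint_left]
    intro n hn hn'
    rw [PY, mem_filter, mem_Icc] at hn
    rw [QY, mem_filter] at hn'
    have h1 : (n : ℝ) ≤ y :=
      le_trans (by exact_mod_cast hn.1.2) (Nat.floor_le (by linarith : (0 : ℝ) ≤ y))
    linarith [hn'.2.2]
  rw [← Finset.sum_union hdis]
  apply Finset.sum_congr _ (fun _ _ => rfl)
  ext n
  rw [mem_union, PY, QY, mem_filter, mem_filter, mem_filter, mem_Ioc, mem_Icc, mem_Icc]
  have hfl : ⌊y⌋₊ ≤ X := by
    have := Nat.floor_le_floor hyX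
    rwa [Nat.floor_natCast] at this
  constructor
  · rintro ⟨⟨h1, h2⟩, h3⟩
    rcases le_or_gt (n : ℝ) y with h | h
    · exact Or.inl ⟨⟨h1, Nat.le_floor h⟩, h3⟩
    · exact Or.inr ⟨⟨h1, h2⟩, h3, h⟩
  · rintro (⟨⟨h1, h2⟩, h3⟩ | ⟨⟨h1, h2⟩, h3, h4⟩)
    · exact ⟨⟨h1, le_trans h2 hfl⟩, h3⟩
    · exact ⟨⟨h1, h2⟩, h3⟩

lemma PNT_cpow {p : ℕ} (hp : 1 ≤ p) (σ t : ℝ) :
    (p : ℂ) ^ (-((σ : ℂ) + t * Complex.I)) = (((p : ℝ) ^ (-σ) : ℝ) : ℂ) * ee p t := by
  have hp0 : (0 : ℝ) < p := by exact_mod_cast hp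
  rw [cpow_eq_cexp hp, ee]
  congr 1
  rw [Real.rpow_def_of_pos hp0, ← Complex.ofReal_exp]
  congr 2
  ring

theorem p_PNT : Stmt_PNT := by
  intro a b ha hab hb
  obtain ⟨Cpp, hCpp0, hpp⟩ := prime_powers_bound ha
  refine ⟨Cpp, hCpp0, ?_⟩
  intro w y X hw hy hyX σ hσ t
  classical
  set s : ℂ := (σ : ℂ) + t * Complex.I with hs
  have hy0 : (0 : ℝ) < y := by linarith
  have hsplit : DD X s = ∑ n ∈ Ioc 0 X,
      (((if n.Prime then 0 else ArithmeticFunction.vonMangoldt n : ℝ)) : ℂ) * (n : ℂ) ^ (-s)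
      + ∑ n ∈ (Ioc 0 X).filter (fun n : ℕ => n.Prime), (Real.log n : ℂ) * (n : ℂ) ^ (-s) := by
    rw [Finset.sum_filter, ← Finset.sum_add_distrib]
    unfold DD
    apply Finset.sum_congr rfl
    intro n _
    split_ifs with h
    · rw [ArithmeticFunction.vonMangoldt_apply_prime h]
      simp
    · simp
  have h1 : ‖∑ n ∈ Ioc 0 X,
      (((if n.Prime then 0 else ArithmeticFunction.vonMangoldt n : ℝ)) : ℂ) * (n : ℂ) ^ (-s)‖ ≤
      Cpp := by
    refine le_trans (norm_sum_le _ _) (le_trans ?_ (hpp X))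
    apply Finset.sum_le_sum
    intro n hn
    have hn1 := (mem_Ioc.1 hn).1
    have h0 : 0 ≤ (if n.Prime then 0 else ArithmeticFunction.vonMangoldt n : ℝ) := by
      split_ifs
      · exact le_rfl
      · exact ArithmeticFunction.vonMangoldt_nonneg
    rw [norm_mul, Complex.norm_real, Real.norm_eq_abs, abs_of_nonneg h0, hs, norm_cpow_nat hn1]
    apply mul_le_mul_of_nonneg_left _ h0
    apply Real.rpow_le_rpow_of_exponent_le (by exact_mod_cast hn1)
    linarith [hσ.1]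
  rw [PNT_split y X hy hyX] at hsplit
  set A : ℂ := ∑ n ∈ Ioc 0 X,
      (((if n.Prime then 0 else ArithmeticFunction.vonMangoldt n : ℝ)) : ℂ) * (n : ℂ) ^ (-s) with hA
  set B : ℂ := ∑ p ∈ PY y, (Real.log p : ℂ) * (p : ℂ) ^ (-s) with hB
  set D : ℂ := ∑ p ∈ QY y X, (Real.log p : ℂ) * (p : ℂ) ^ (-s) with hD
  have hD1 : ‖D‖ = y ^ (1 - σ) * ‖PS (QY y X) y σ t‖ := by
    rw [hD, hs]
    exact PS_rel _ (fun p hp => by
      rw [QY, mem_filter] at hp
      exact hp.2.1.one_lt.le) hy0 σ t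
  have hPY : ∀ p ∈ PY y, p.Prime ∧ (p : ℝ) ≤ y := by
    intro p hp
    rw [PY, mem_filter, mem_Icc] at hp
    exact ⟨hp.2, le_trans (by exact_mod_cast hp.1.2) (Nat.floor_le hy0.le)⟩
  have hB1 : (w * B).re = ∑ p ∈ PY y, Real.log p * (p : ℝ) ^ (-σ) * (w * ee p t).re := by
    rw [hB, Finset.mul_sum, Complex.re_sum]
    apply Finset.sum_congr rfl
    intro p hp
    rw [hs, PNT_cpow (hPY p hp).1.one_lt.le]
    have e : w * ((Real.log p : ℂ) * ((((p : ℝ) ^ (-σ) : ℝ) : ℂ) * ee p t)) =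
        ((Real.log p * (p : ℝ) ^ (-σ) : ℝ) : ℂ) * (w * ee p t) := by
      push_cast
      ring
    rw [e, Complex.re_ofReal_mul]
  have hee : ∀ p : ℕ, (w * ee p t).re ≤ 1 := by
    intro p
    refine le_trans (Complex.re_le_norm _) ?_
    rw [norm_mul, hw, ee, Complex.norm_exp_ofReal_mul_I, one_mul]
  have hG : ∑ p ∈ PY y, Real.log p * (p : ℝ) ^ (-σ) * (1 - (w * ee p t).re) ≤
      y ^ (1 - σ) * G1 b y w t := by
    rw [G1, ← mul_assoc, ← Real.rpow_add hy0, Finset.mul_sum]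
    apply Finset.sum_le_sum
    intro p hp
    obtain ⟨hp1, hp2⟩ := hPY p hp
    have hp0 : (0 : ℝ) < p := by exact_mod_cast hp1.pos
    have h3 : (p : ℝ) ^ (-σ) ≤ y ^ (1 - σ + (b - 1)) * (p : ℝ) ^ (-b) := by
      have e1 : (p : ℝ) ^ (-σ) = (p : ℝ) ^ (1 - σ + (b - 1)) * (p : ℝ) ^ (-b) := by
        rw [← Real.rpow_add hp0]
        congr 1
        ring
      rw [e1]
      apply mul_le_mul_of_nonneg_right _ (by positivity)
      apply Real.rpow_le_rpow hp0.le hp2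
      linarith [hσ.2]
    have h4 : 0 ≤ Real.log p * (1 - (w * ee p t).re) :=
      mul_nonneg (Real.log_natCast_nonneg p) (by linarith [hee p])
    have h5 := mul_le_mul_of_nonneg_left h3 h4
    calc Real.log p * (p : ℝ) ^ (-σ) * (1 - (w * ee p t).re) =
          Real.log p * (1 - (w * ee p t).re) * (p : ℝ) ^ (-σ) := by ring
      _ ≤ _ := h5
      _ = _ := by ring
  have hBG : ∑ p ∈ PY y, Real.log p * (p : ℝ) ^ (-σ) * (1 - (w * ee p t).re) =
      ∑ p ∈ PY y, Real.log p * (p : ℝ) ^ (-σ) - (w * B).re := by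
    rw [hB1, ← Finset.sum_sub_distrib]
    apply Finset.sum_congr rfl
    intro p _
    ring
  have hre : (w * DD X s).re = (w * A).re + ((w * B).re + (w * D).re) := by
    rw [hsplit, mul_add, mul_add, Complex.add_re, Complex.add_re]
  have hAr : -Cpp ≤ (w * A).re := by
    have h6 := Complex.abs_re_le_norm (w * A)
    rw [norm_mul, hw, one_mul] at h6
    have := (abs_le.1 h6).1
    linarith
  have hDr : -(y ^ (1 - σ) * ‖PS (QY y X) y σ t‖) ≤ (w * D).re := by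
    have h6 := Complex.abs_re_le_norm (w * D)
    rw [norm_mul, hw, one_mul, hD1] at h6
    exact (abs_le.1 h6).1
  rw [hre]
  linarith

end Pool.LDV
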