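import Pool.Agent.Work.MP_e9b29d_ld.Interface

/-! Block RBD: size and continuity of the resonator (helper46). -/

set_option autoImplicit false

namespace Pool.LDV

open Finset Filter MeasureTheory Pool.Agent.Work.MP_e9b29d_nt

theorem RBD_ee (n : ℕ) (t : ℝ) : ‖ee n t‖ = 1 := by
  unfold ee
  exact Complex.norm_exp_ofReal_mul_I _

theorem RBD_cont (n : ℕ) : Continuous (fun t => ee n t) := by
  unfold ee
  fun_prop

theorem p_RBD : Stmt_RBD := by
  intro w P K hw
  refine ⟨?_, ?_, RBD_ee⟩
  · unfold RR
    refine continuous_finsetProd _ fun p _ => continuous_finsetSum _ fun j _ => ?_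
    exact (continuous_const.mul (RBD_cont p)).pow j
  · intro t
    unfold RR
    rw [norm_prod]
    calc ∏ p ∈ P, ‖∑ j ∈ range K, (w * ee p t) ^ j‖ ≤ ∏ _p ∈ P, (K : ℝ) := by
          refine Finset.prod_le_prod (fun _ _ => norm_nonneg _) fun p _ => ?_
          refine (norm_sum_le _ _).trans (le_of_eq ?_)
          rw [Finset.sum_congr rfl (g := fun _ => (1 : ℝ)) (fun j _ => by
            rw [norm_pow, norm_mul, hw, RBD_ee, mul_one, one_pow])]
          simp
      _ = (K : ℝ) ^ P.card := by rw [Finset.prod_const]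

end Pool.LDV
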