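import Pool.Agent.Work.MP_e9b29d_ld.Interface

/-! Block RLO: the mean square of the resonator from below. -/

set_option autoImplicit false

namespace Pool.LDV

open Finset Filter MeasureTheory Pool.Agent.Work.MP_e9b29d_nt

theorem RLO_ee_one (t : ℝ) : ee 1 t = 1 := by
  simp [ee]

theorem p_RLO (hPMV : Stmt_PMV) : Stmt_RLO := by
  intro w P K M A B hw hP hK hM hAB
  have h := hPMV P {1} K M (fun _ j => if j < K then w ^ j else 0) (fun _ => 1) A B hP
    (by
      intro q hq
      rw [mem_singleton] at hq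
      subst hq
      exact ⟨le_refl _, fun p hp hd => (hP p hp).one_lt.ne' (Nat.dvd_one.mp hd)⟩)
    (by
      intro q hq
      rw [mem_singleton] at hq
      subst hq
      rw [one_mul]
      exact hM) hAB
  have h1 : ∀ t : ℝ, (∏ p ∈ P, ∑ j ∈ range (K + 1), (if j < K then w ^ j else 0) * ee p t ^ j) *
      ∑ q ∈ ({1} : Finset ℕ), (1 : ℂ) * ee q t = RR w P K t := by
    intro t
    rw [sum_singleton, RLO_ee_one, one_mul, mul_one, RR]
    refine prod_congr rfl fun p _ => ?_
    rw [sum_range_succ, if_neg (lt_irrefl K), zero_mul, add_zero]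
    refine sum_congr rfl fun j hj => ?_
    rw [if_pos (mem_range.mp hj), mul_pow]
  have h2 : (∏ p ∈ P, ∑ j ∈ range (K + 1), ‖(if j < K then w ^ j else 0 : ℂ)‖ ^ 2) *
      ∑ q ∈ ({1} : Finset ℕ), ‖(1 : ℂ)‖ ^ 2 = (K : ℝ) ^ P.card := by
    rw [sum_singleton, norm_one, one_pow, mul_one, prod_const]
    congr 1
    rw [sum_range_succ, if_neg (lt_irrefl K), norm_zero, zero_pow two_ne_zero, add_zero]
    have : ∀ j ∈ range K, ‖(if j < K then w ^ j else 0 : ℂ)‖ ^ 2 = 1 := by
      intro j hj
      rw [if_pos (mem_range.mp hj), norm_pow, hw, one_pow, one_pow]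
    rw [sum_congr rfl this]
    simp
  simp only [h1] at h
  rw [h2] at h
  have h3 := (abs_le.mp h).1
  linarith

end Pool.LDV
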