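import Pool.Agent.Work.MP_e9b29d_ld.Interface

/-! # RZU: under the weight `|R|^2` the numbers `w p ^ (-it)` are close to `1` -/

set_option autoImplicit false

namespace Pool.LDV

open Finset Filter MeasureTheory Pool.Agent.Work.MP_e9b29d_nt

theorem RZU_norm (z : ℂ) (hz : ‖z‖ = 1) : ‖1 - z‖ ^ 2 = 2 * (1 - z.re) := by
  have h1 : z.re ^ 2 + z.im ^ 2 = 1 := by
    have h := Complex.sq_norm z
    rw [hz, Complex.normSq_apply] at h
    nlinarith
  rw [Complex.sq_norm, Complex.normSq_apply]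
  simp only [Complex.sub_re, Complex.sub_im, Complex.one_re, Complex.one_im]
  nlinarith

theorem p_RZU (hPMV : Stmt_PMV) (hRBD : Stmt_RBD) : Stmt_RZU := by
  intro w P K M A B hw hP hK hM hAB p hp
  set a : ℕ → ℕ → ℂ := fun p' j =>
    if p' = p then (if j = 0 then 1 else if j = K then -w ^ K else 0)
      else (if j < K then w ^ j else 0) with ha
  have hK0 : (0 : ℝ) < K := by exact_mod_cast hK
  have h0m : 0 ∈ range (K + 1) := by simp
  have hKm : K ∈ range (K + 1) := by simp
  have h0K : 0 ≠ K := by omega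
  have h1 := hPMV P {1} K M a (fun _ => 1) A B hP (by
    intro q hq
    rw [Finset.mem_singleton] at hq
    subst hq
    refine ⟨le_rfl, fun p' hp' h => ?_⟩
    exact (hP p' hp').one_lt.ne' (Nat.dvd_one.1 h)) (by
    intro q hq
    rw [Finset.mem_singleton] at hq
    subst hq
    rw [one_mul]
    exact hM) hAB
  have hprod : ∀ t : ℝ, (∏ p' ∈ P, ∑ j ∈ range (K + 1), a p' j * ee p' t ^ j) *
      ∑ q ∈ ({1} : Finset ℕ), (1 : ℂ) * ee q t = RR w P K t * (1 - w * ee p t) := by
    intro t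
    have e1 : ee 1 t = 1 := by simp [ee]
    rw [Finset.sum_singleton, e1, mul_one, mul_one]
    unfold RR
    rw [← Finset.mul_prod_erase P _ hp,
      ← Finset.mul_prod_erase P (fun p => ∑ j ∈ range K, (w * ee p t) ^ j) hp]
    have e2 : ∏ x ∈ P.erase p, ∑ j ∈ range (K + 1), a x j * ee x t ^ j =
        ∏ x ∈ P.erase p, ∑ j ∈ range K, (w * ee x t) ^ j := by
      refine Finset.prod_congr rfl fun x hx => ?_
      have hxp := Finset.ne_of_mem_erase hx
      rw [Finset.sum_range_succ]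
      simp only [ha, if_neg hxp, lt_irrefl, if_false, zero_mul, add_zero]
      refine Finset.sum_congr rfl fun j hj => ?_
      rw [if_pos (Finset.mem_range.1 hj), mul_pow]
    have e3 : ∑ j ∈ range (K + 1), a p j * ee p t ^ j = 1 - (w * ee p t) ^ K := by
      rw [Finset.sum_eq_add_of_mem 0 K h0m hKm h0K]
      · simp only [ha, if_true, if_neg h0K.symm, pow_zero, mul_pow]
        ring
      · intro c _ hc
        simp only [ha, if_true, if_neg hc.1, if_neg hc.2, zero_mul]
    rw [e2, e3]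
    have e4 := geom_sum_mul_neg (w * ee p t) K
    rw [← e4]
    ring
  have hsq : (∏ p' ∈ P, ∑ j ∈ range (K + 1), ‖a p' j‖ ^ 2) * ∑ q ∈ ({1} : Finset ℕ),
      ‖(1 : ℂ)‖ ^ 2 = 2 * ((K : ℝ) ^ P.card / K) := by
    rw [Finset.sum_singleton, norm_one, one_pow, mul_one, ← Finset.mul_prod_erase P _ hp]
    have e2 : ∏ x ∈ P.erase p, ∑ j ∈ range (K + 1), ‖a x j‖ ^ 2 = (K : ℝ) ^ (P.card - 1) := by
      rw [← Finset.card_erase_of_mem hp, ← Finset.prod_const]
      refine Finset.prod_congr rfl fun x hx => ?_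
      have hxp := Finset.ne_of_mem_erase hx
      rw [Finset.sum_range_succ]
      simp only [ha, if_neg hxp, lt_irrefl, if_false, norm_zero]
      have e5 : ∀ j ∈ range K, ‖(if j < K then w ^ j else 0 : ℂ)‖ ^ 2 = 1 := by
        intro j hj
        rw [if_pos (Finset.mem_range.1 hj), norm_pow, hw, one_pow, one_pow]
      rw [Finset.sum_congr rfl e5, Finset.sum_const, Finset.card_range, nsmul_eq_mul]
      norm_num
    have e3 : ∑ j ∈ range (K + 1), ‖a p j‖ ^ 2 = 2 := by
      rw [Finset.sum_eq_add_of_mem 0 K h0m hKm h0K]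
      · simp only [ha, if_true, if_neg h0K.symm, norm_neg, norm_pow, hw, one_pow, norm_one]
        norm_num
      · intro c _ hc
        simp only [ha, if_true, if_neg hc.1, if_neg hc.2, norm_zero]
        norm_num
    rw [e2, e3]
    congr 1
    rw [eq_div_iff hK0.ne', ← pow_succ]
    congr 1
    have : 1 ≤ P.card := Finset.card_pos.2 ⟨p, hp⟩
    omega
  rw [hsq] at h1
  simp only [hprod] at h1
  have h2 : ∀ t : ℝ, ‖RR w P K t‖ ^ 2 * (1 - (w * ee p t).re) =
      1 / 2 * ‖RR w P K t * (1 - w * ee p t)‖ ^ 2 := by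
    intro t
    rw [norm_mul, mul_pow, RZU_norm (w * ee p t) (by
      rw [norm_mul, hw, (hRBD w P K hw).2.2 p t, one_mul])]
    ring
  simp only [h2]
  rw [intervalIntegral.integral_const_mul]
  have h3 := (abs_le.1 h1).2
  calc 1 / 2 * ∫ t in A..B, ‖RR w P K t * (1 - w * ee p t)‖ ^ 2
      ≤ 1 / 2 * ((B - A) * (2 * ((K : ℝ) ^ P.card / K)) + Er M * (2 * ((K : ℝ) ^ P.card / K))) := by
        linarith
    _ = ((B - A) + Er M) * (K : ℝ) ^ P.card / K := by ring

end Pool.LDV
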