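import Pool.Agent.Work.MP_e9b29d_ld.Interface

/-! Block SMI: the Sobolev majorant under the weight. -/

set_option autoImplicit false

namespace Pool.LDV

open Finset Filter MeasureTheory Pool.Agent.Work.MP_e9b29d_nt

/-- the mean square over the rectangle, with the weight -/
theorem SMI_rect (hRGU : Stmt_RGU) (hRBD : Stmt_RBD) (w : ℂ) (y : ℝ) (X K M : ℕ) (A B a b : ℝ)
    (c : ℕ → ℂ) (hw : ‖w‖ = 1) (hy : 3 ≤ y) (hK : 1 ≤ K) (hX : X * ∏ p ∈ PY y, p ^ K ≤ M)
    (hAB : A ≤ B) (hab : a ≤ b) :
    ∫ t in A..B, ‖RR w (PY y) K t‖ ^ 2 *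
        (∫ v in a..b, ‖FF (QY y X) c (fun p => Real.log y - Real.log p) (fun p => -Real.log p) v t‖ ^ 2) ≤
      (b - a) * (((B - A) + Er M) * ((K : ℝ) ^ (PY y).card *
        ∑ q ∈ QY y X, (‖c q‖ * Real.exp (a * (Real.log y - Real.log q))) ^ 2)) := by
  classical
  set al : ℕ → ℝ := fun p => Real.log y - Real.log p with hal
  set l : ℕ → ℝ := fun p => -Real.log p with hl
  set S := QY y X with hS
  have hRc := (hRBD w (PY y) K hw).1
  have hcont : Continuous (Function.uncurry fun t v : ℝ => ‖RR w (PY y) K t‖ ^ 2 * ‖FF S c al l v t‖ ^ 2) := by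
    have h1 := (continuous_FF S c al l).comp (continuous_swap : Continuous (Prod.swap : ℝ × ℝ → ℝ × ℝ))
    exact ((hRc.comp continuous_fst).norm.pow 2).mul ((h1.norm).pow 2)
  have hcont' : Continuous (Function.uncurry fun v t : ℝ => ‖RR w (PY y) K t‖ ^ 2 * ‖FF S c al l v t‖ ^ 2) := by
    have h1 := continuous_FF S c al l
    exact ((hRc.comp continuous_snd).norm.pow 2).mul ((h1.norm).pow 2)
  have h0 : ∫ t in A..B, ‖RR w (PY y) K t‖ ^ 2 * (∫ v in a..b, ‖FF S c al l v t‖ ^ 2) =
      ∫ t in A..B, ∫ v in a..b, ‖RR w (PY y) K t‖ ^ 2 * ‖FF S c al l v t‖ ^ 2 := by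
    refine intervalIntegral.integral_congr fun t _ => ?_
    exact (intervalIntegral.integral_const_mul _ _).symm
  rw [h0, intervalIntegral_intervalIntegral_swap]
  · have h1 : ∫ v in a..b, ∫ t in A..B, ‖RR w (PY y) K t‖ ^ 2 * ‖FF S c al l v t‖ ^ 2 ≤
        ∫ _v in a..b, (((B - A) + Er M) * ((K : ℝ) ^ (PY y).card *
        ∑ q ∈ S, (‖c q‖ * Real.exp (a * (Real.log y - Real.log q))) ^ 2)) := by
      apply intervalIntegral.integral_mono_on hab
      · apply Continuous.intervalIntegrable
        exact intervalIntegral.continuous_parametric_intervalIntegral_of_continuous' hcont' A B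
      · exact intervalIntegrable_const
      · intro v hv
        have hprime : ∀ p ∈ PY y, p.Prime := by
          intro p hp
          unfold PY at hp
          rw [mem_filter] at hp
          exact hp.2
        have hQ : ∀ q ∈ S, 1 ≤ q ∧ q ≤ X ∧ q.Prime ∧ y < (q : ℝ) := by
          intro q hq
          rw [hS] at hq
          unfold QY at hq
          rw [mem_filter, mem_Icc] at hq
          exact ⟨hq.1.1, hq.1.2, hq.2.1, hq.2.2⟩
        have h2 := hRGU w (PY y) S K M (fun q => c q * Complex.exp ((v * al q : ℝ) : ℂ)) A B hw hprime hK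
          (by
            intro q hq
            obtain ⟨q1, q2, q3, q4⟩ := hQ q hq
            refine ⟨q1, fun p hp hpq => ?_⟩
            have h3 := (Nat.prime_dvd_prime_iff_eq (hprime p hp) q3).1 hpq
            unfold PY at hp
            rw [mem_filter, mem_Icc] at hp
            have h4 : (p : ℝ) ≤ y := (Nat.le_floor_iff (by linarith)).1 hp.1.2
            rw [h3] at h4
            linarith)
          (by
            intro q hq
            obtain ⟨q1, q2, q3, q4⟩ := hQ q hq
            exact (Nat.mul_le_mul_right _ q2).trans hX) hAB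
        have h5 : ∀ t : ℝ, ∑ q ∈ S, (c q * Complex.exp ((v * al q : ℝ) : ℂ)) * ee q t = FF S c al l v t := by
          intro t
          rfl
        simp only [h5] at h2
        refine h2.trans ?_
        have hZ : 0 ≤ (B - A) + Er M := by
          unfold Er
          have hM : (0 : ℝ) ≤ Real.log M := Real.log_natCast_nonneg M
          have : (0 : ℝ) ≤ (M : ℝ) := by positivity
          have h6 : 0 ≤ 4 * (M : ℝ) * (1 + Real.log M) := by positivity
          linarith
        refine mul_le_mul_of_nonneg_left (mul_le_mul_of_nonneg_left ?_ (by positivity)) hZ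
        refine Finset.sum_le_sum fun q hq => ?_
        obtain ⟨q1, q2, q3, q4⟩ := hQ q hq
        rw [norm_mul, Complex.norm_exp, Complex.ofReal_re]
        have h7 : Real.exp (v * al q) ≤ Real.exp (a * (Real.log y - Real.log q)) := by
          apply Real.exp_le_exp.2
          have h8 : al q ≤ 0 := by
            rw [hal]
            have : Real.log y ≤ Real.log q := Real.log_le_log (by linarith) q4.le
            simp only []
            linarith
          have h9 : v * al q ≤ a * al q := mul_le_mul_of_nonpos_right hv.1 h8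
          exact h9
        gcongr
    refine h1.trans (le_of_eq ?_)
    rw [intervalIntegral.integral_const, smul_eq_mul]
  · have hcc : IsCompact (Set.uIcc A B ×ˢ Set.uIcc a b) := isCompact_uIcc.prod isCompact_uIcc
    exact (hcont.continuousOn.integrableOn_compact hcc).mono_set
      (Set.prod_mono Set.uIoc_subset_uIcc Set.uIoc_subset_uIcc)

theorem p_SMI (hRGU : Stmt_RGU) (hRBD : Stmt_RBD) (_hSMJ : Stmt_SMJ) (hTLQ : Stmt_TLQ) : Stmt_SMI := by
  intro a b ha hab hb
  obtain ⟨C, hC, hT⟩ := hTLQ a ha (by linarith)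
  have hba : 0 < b - a := by linarith
  refine ⟨((1 / (b - a) + 1) * (b - a) + (b - a)) * C, by positivity, ?_⟩
  intro w y X K M A B hw hy hK hX1 hX hAB
  classical
  set al : ℕ → ℝ := fun p => Real.log y - Real.log p with hal
  set l : ℕ → ℝ := fun p => -Real.log p with hl
  set S := QY y X with hS
  set c1 : ℕ → ℂ := fun p => ((Real.log p / y : ℝ) : ℂ) with hc1
  set c2 : ℕ → ℂ := fun p => ((Real.log p / y : ℝ) : ℂ) * ((Real.log y - Real.log p : ℝ) : ℂ) with hc2
  have hRc := (hRBD w (PY y) K hw).1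
  have hHc : ∀ c : ℕ → ℂ, Continuous fun t : ℝ => ∫ v in a..b, ‖FF S c al l v t‖ ^ 2 := by
    intro c
    have h1 : Continuous (Function.uncurry fun t v : ℝ => ‖FF S c al l v t‖ ^ 2) := by
      have h1 := (continuous_FF S c al l).comp (continuous_swap : Continuous (Prod.swap : ℝ × ℝ → ℝ × ℝ))
      exact (h1.norm).pow 2
    exact intervalIntegral.continuous_parametric_intervalIntegral_of_continuous' h1 a b
  have hI : ∀ c : ℕ → ℂ, IntervalIntegrable
      (fun t : ℝ => ‖RR w (PY y) K t‖ ^ 2 * ∫ v in a..b, ‖FF S c al l v t‖ ^ 2) volume A B := fun c =>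
    ((hRc.norm.pow 2).mul (hHc c)).intervalIntegrable _ _
  have hsplit : ∫ t in A..B, ‖RR w (PY y) K t‖ ^ 2 * SS S a b y t =
      (1 / (b - a) + 1) * (∫ t in A..B, ‖RR w (PY y) K t‖ ^ 2 * ∫ v in a..b, ‖FF S c1 al l v t‖ ^ 2) +
      ∫ t in A..B, ‖RR w (PY y) K t‖ ^ 2 * ∫ v in a..b, ‖FF S c2 al l v t‖ ^ 2 := by
    rw [← intervalIntegral.integral_const_mul, ← intervalIntegral.integral_add
      ((hI c1).const_mul _) (hI c2)]
    refine intervalIntegral.integral_congr fun t _ => ?_
    simp only [SS]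
    show ‖RR w (PY y) K t‖ ^ 2 * ((1 / (b - a) + 1) * (∫ v in a..b, ‖FF S c1 al l v t‖ ^ 2) +
      ∫ v in a..b, ‖FF S c2 al l v t‖ ^ 2) = _
    ring
  rw [hsplit]
  have r1 := SMI_rect hRGU hRBD w y X K M A B a b c1 hw hy hK hX hAB hab.le
  have r2 := SMI_rect hRGU hRBD w y X K M A B a b c2 hw hy hK hX hAB hab.le
  have hsum := hT y X hy
  have hZ : 0 ≤ (B - A) + Er M := by
    unfold Er
    have hM : (0 : ℝ) ≤ Real.log M := Real.log_natCast_nonneg M
    have : (0 : ℝ) ≤ (M : ℝ) := by positivity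
    have h6 : 0 ≤ 4 * (M : ℝ) * (1 + Real.log M) := by positivity
    linarith
  have s1 : ∑ q ∈ S, (‖c1 q‖ * Real.exp (a * (Real.log y - Real.log q))) ^ 2 ≤ C * Real.log y / y := by
    refine le_trans (Finset.sum_le_sum fun q _ => ?_) hsum
    rw [hc1]
    simp only [Complex.norm_real, Real.norm_eq_abs]
    rw [mul_pow, sq_abs, ← mul_pow]
    have : 0 ≤ (Real.log q / y * Real.exp (a * (Real.log y - Real.log q))) ^ 2 := by positivity
    have h3 : 0 ≤ (Real.log y - Real.log q) ^ 2 := by positivity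
    nlinarith
  have s2 : ∑ q ∈ S, (‖c2 q‖ * Real.exp (a * (Real.log y - Real.log q))) ^ 2 ≤ C * Real.log y / y := by
    refine le_trans (Finset.sum_le_sum fun q _ => ?_) hsum
    rw [hc2]
    simp only [norm_mul, Complex.norm_real, Real.norm_eq_abs]
    have h4 : (|Real.log q / y| * |Real.log y - Real.log q| * Real.exp (a * (Real.log y - Real.log q))) ^ 2 =
        (Real.log q / y * Real.exp (a * (Real.log y - Real.log q))) ^ 2 * (Real.log y - Real.log q) ^ 2 := by
      rw [mul_pow, mul_pow, sq_abs, sq_abs]; ring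
    rw [h4]
    have : 0 ≤ (Real.log q / y * Real.exp (a * (Real.log y - Real.log q))) ^ 2 := by positivity
    nlinarith
  have hKp : (0 : ℝ) ≤ (K : ℝ) ^ (PY y).card := by positivity
  set Z := (B - A) + Er M with hZdef
  set Kc := (K : ℝ) ^ (PY y).card with hKc
  set R := C * Real.log y / y with hR
  have t1 : (b - a) * (Z * (Kc * ∑ q ∈ S, (‖c1 q‖ * Real.exp (a * (Real.log y - Real.log q))) ^ 2)) ≤
      (b - a) * (Z * (Kc * R)) := by gcongr
  have t2 : (b - a) * (Z * (Kc * ∑ q ∈ S, (‖c2 q‖ * Real.exp (a * (Real.log y - Real.log q))) ^ 2)) ≤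
      (b - a) * (Z * (Kc * R)) := by gcongr
  have u1 := r1.trans t1
  have u2 := r2.trans t2
  have hK1 : 0 ≤ 1 / (b - a) + 1 := by positivity
  have u3 := mul_le_mul_of_nonneg_left u1 hK1
  have hfin : Z * Kc * (((1 / (b - a) + 1) * (b - a) + (b - a)) * C * Real.log y / y) =
      (1 / (b - a) + 1) * ((b - a) * (Z * (Kc * R))) + (b - a) * (Z * (Kc * R)) := by
    rw [hR]; ring
  rw [hfin]
  exact add_le_add u3 u2

end Pool.LDV
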