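import Pool.Agent.Work.MP_e9b29d_ld.Interface

/-! Block SMJ (MP_e9b29d_ld): the Sobolev majorant, typed by helper55. -/

set_option autoImplicit false

namespace Pool.LDV

open Finset Filter MeasureTheory Pool.Agent.Work.MP_e9b29d_nt

theorem p_SMJ : Stmt_SMJ := by
  intro Q a b y hab
  have hba : 0 < b - a := by linarith
  have cI : ∀ (c' : ℕ → ℂ), Continuous (fun u => ∫ v in a..b,
      ‖FF Q c' (fun p => Real.log y - Real.log p) (fun p => -Real.log p) v u‖ ^ 2) := by
    intro c'
    have hcont : Continuous (Function.uncurry fun u v : ℝ =>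
        ‖FF Q c' (fun p => Real.log y - Real.log p) (fun p => -Real.log p) v u‖ ^ 2) := by
      have := (continuous_FF Q c' (fun p => Real.log y - Real.log p)
        (fun p => -Real.log p)).comp (continuous_swap : Continuous (Prod.swap : ℝ × ℝ → ℝ × ℝ))
      exact (this.norm).pow 2
    exact intervalIntegral.continuous_parametric_intervalIntegral_of_continuous' hcont a b
  refine ⟨?_, ?_, ?_⟩
  · unfold SS
    exact (continuous_const.mul (cI _)).add (cI _)
  · intro t
    unfold SS
    have h1 : 0 ≤ ∫ v in a..b, ‖PS Q y v t‖ ^ 2 :=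
      intervalIntegral.integral_nonneg hab.le fun v _ => by positivity
    have h2 : 0 ≤ ∫ v in a..b, ‖PSd Q y v t‖ ^ 2 :=
      intervalIntegral.integral_nonneg hab.le fun v _ => by positivity
    have h3 : 0 < 1 / (b - a) := by positivity
    positivity
  · intro σ hσ t
    unfold SS
    exact sob1 (g := fun v => PS Q y v t) (g' := fun v => PSd Q y v t)
      (fun v => hasDerivAt_FF_s Q _ _ _ v t)
      ((continuous_FF Q _ _ _).comp (by fun_prop : Continuous (fun v : ℝ => (v, t)))) hab hσ

end Pool.LDV
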