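import Pool.Agent.Work.MP_e9b29d_ld.Interface

/-! # Block TLQ: sums over the primes beyond `y` -/

set_option autoImplicit false

namespace Pool.LDV

open Finset Filter MeasureTheory Pool.Agent.Work.MP_e9b29d_nt

theorem TLQ_bl (y q : ℝ) (hy : 0 < y) (h : y < q) : ∃ j : ℕ, 2 ^ j * y < q ∧ q ≤ 2 * (2 ^ j * y) := by
  have hex : ∃ J : ℕ, q ≤ 2 ^ J * y := by
    obtain ⟨J, hJ⟩ := pow_unbounded_of_one_lt (q / y) (by norm_num : (1 : ℝ) < 2)
    refine ⟨J, ?_⟩
    rw [div_lt_iff₀ hy] at hJ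
    exact hJ.le
  classical
  have h1 := Nat.find_spec hex
  have h2 : Nat.find hex ≠ 0 := by
    intro h3
    rw [h3] at h1
    simp at h1
    linarith
  obtain ⟨j, hj⟩ := Nat.exists_eq_succ_of_ne_zero h2
  refine ⟨j, ?_, ?_⟩
  · have h3 := Nat.find_min hex (m := j) (by omega)
    exact not_le.1 h3
  · rw [hj, Nat.succ_eq_add_one, pow_succ] at h1
    linarith

theorem TLQ_sum (r : ℝ) (h0 : 0 < r) (h1 : r < 1) :
    Summable (fun j : ℕ => 4 * ((j : ℝ) + 2) * (1 + ((j : ℝ) + 1) ^ 2) * r ^ j) := by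
  have hn : ‖r‖ < 1 := by rw [Real.norm_eq_abs, abs_of_pos h0]; exact h1
  have s3 := summable_pow_mul_geometric_of_norm_lt_one 3 hn
  have s2 := summable_pow_mul_geometric_of_norm_lt_one 2 hn
  have s1 := summable_pow_mul_geometric_of_norm_lt_one 1 hn
  have s0 := summable_pow_mul_geometric_of_norm_lt_one 0 hn
  have s := (((s3.mul_left 4).add (s2.mul_left 16)).add (s1.mul_left 24)).add (s0.mul_left 16)
  refine s.congr fun j => ?_
  ring

theorem p_TLQ : Stmt_TLQ := by
  intro a ha ha1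
  obtain ⟨r, hr⟩ : ∃ r : ℝ, r = (2 : ℝ) ^ (1 - 2 * a) := ⟨_, rfl⟩
  have hr0 : 0 < r := by rw [hr]; positivity
  have hr1 : r < 1 := by
    rw [hr]
    exact Real.rpow_lt_one_of_one_lt_of_neg (by norm_num) (by linarith)
  have hs := TLQ_sum r hr0 hr1
  have hpos : ∀ j : ℕ, 0 ≤ 4 * ((j : ℝ) + 2) * (1 + ((j : ℝ) + 1) ^ 2) * r ^ j := fun j => by positivity
  refine ⟨∑' j : ℕ, 4 * ((j : ℝ) + 2) * (1 + ((j : ℝ) + 1) ^ 2) * r ^ j, tsum_nonneg hpos, ?_⟩
  intro y X hy
  have hy0 : 0 < y := by linarith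
  have hlogy : 1 ≤ Real.log y := by
    rw [Real.le_log_iff_exp_le hy0]
    exact (Real.exp_one_lt_d9.le.trans (by norm_num)).trans hy
  have hex : ∀ q : ℕ, ∃ j : ℕ, y < (q : ℝ) → (2 ^ j * y < q ∧ (q : ℝ) ≤ 2 * (2 ^ j * y)) := by
    intro q
    by_cases h : y < (q : ℝ)
    · obtain ⟨j, h1, h2⟩ := TLQ_bl y q hy0 h
      exact ⟨j, fun _ => ⟨h1, h2⟩⟩
    · exact ⟨0, fun h' => absurd h' h⟩
  choose jf hjf using hex
  have hmem : ∀ q ∈ QY y X, q.Prime ∧ y < (q : ℝ) := by
    intro q hq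
    unfold QY at hq
    rw [mem_filter] at hq
    exact hq.2
  rw [← Finset.sum_fiberwise_of_maps_to (s := QY y X) (t := (QY y X).image jf) (g := jf)
    (fun q hq => mem_image_of_mem _ hq)]
  have hblock : ∀ j ∈ (QY y X).image jf, ∑ q ∈ (QY y X).filter (fun q => jf q = j),
      (Real.log q / y * Real.exp (a * (Real.log y - Real.log q))) ^ 2 *
        (1 + (Real.log y - Real.log q) ^ 2) ≤
      (4 * ((j : ℝ) + 2) * (1 + ((j : ℝ) + 1) ^ 2) * r ^ j) * (Real.log y / y) := by
    intro j _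
    have h2j : (1 : ℝ) ≤ 2 ^ j := one_le_pow₀ (by norm_num)
    have hY : y ≤ 2 ^ j * y := by nlinarith
    have hlog2 : Real.log 2 ≤ 1 := by
      have := Real.log_two_lt_d9
      linarith
    have hlog20 : 0 ≤ Real.log 2 := Real.log_nonneg (by norm_num)
    have hlogY : Real.log (2 * (2 ^ j * y)) = (j + 1) * Real.log 2 + Real.log y := by
      rw [Real.log_mul (by norm_num) (by positivity), Real.log_mul (by positivity) hy0.ne', Real.log_pow]
      ring
    have hlogY' : Real.log (2 * (2 ^ j * y)) ≤ (j + 2) * Real.log y := by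
      rw [hlogY]
      have hj : (0 : ℝ) ≤ j := Nat.cast_nonneg j
      nlinarith
    have h1 : ∀ q ∈ (QY y X).filter (fun q => jf q = j),
        (Real.log q / y * Real.exp (a * (Real.log y - Real.log q))) ^ 2 *
          (1 + (Real.log y - Real.log q) ^ 2) ≤
        (Real.log q / y * Real.exp (a * (Real.log y - Real.log q))) ^ 2 * (1 + ((j : ℝ) + 1) ^ 2) := by
      intro q hq
      obtain ⟨hq1, hq2⟩ := mem_filter.1 hq
      obtain ⟨hqp, hqy⟩ := hmem q hq1
      have hjq := hjf q hqy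
      rw [hq2] at hjq
      apply mul_le_mul_of_nonneg_left _ (sq_nonneg _)
      have h3 : Real.log q ≤ (j + 1) * Real.log 2 + Real.log y := by
        rw [← hlogY]
        exact Real.log_le_log (by linarith) hjq.2
      have h4 : Real.log y ≤ Real.log q := Real.log_le_log hy0 hqy.le
      have hj : (0 : ℝ) ≤ j := Nat.cast_nonneg j
      have h5 : Real.log q - Real.log y ≤ (j : ℝ) + 1 := by nlinarith
      have h6 : (Real.log y - Real.log q) ^ 2 ≤ ((j : ℝ) + 1) ^ 2 := by
        have e : (Real.log y - Real.log q) ^ 2 = (Real.log q - Real.log y) ^ 2 := by ring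
        rw [e]
        exact pow_le_pow_left₀ (by linarith) h5 2
      linarith
    refine (Finset.sum_le_sum h1).trans ?_
    rw [← Finset.sum_mul]
    have hb := block_coeff (a := a) (Y := 2 ^ j * y) (Y0 := y) (by linarith) (by linarith) hY
      ((QY y X).filter (fun q => jf q = j)) (fun q hq => by
        obtain ⟨hq1, hq2⟩ := mem_filter.1 hq
        obtain ⟨hqp, hqy⟩ := hmem q hq1
        have hjq := hjf q hqy
        rw [hq2] at hjq
        exact ⟨hqp, hjq.1, hjq.2⟩)
    have hrj : (2 ^ j * y / y) ^ (1 - 2 * a) = r ^ j := by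
      rw [mul_div_assoc, div_self hy0.ne', mul_one, hr, ← Real.rpow_natCast, ← Real.rpow_natCast,
        ← Real.rpow_mul (by norm_num), ← Real.rpow_mul (by norm_num), mul_comm]
    rw [hrj] at hb
    have h7 : 4 * Real.log (2 * (2 ^ j * y)) * r ^ j / y ≤ 4 * ((j + 2) * Real.log y) * r ^ j / y := by
      gcongr
    calc (∑ q ∈ (QY y X).filter (fun q => jf q = j),
          (Real.log q / y * Real.exp (a * (Real.log y - Real.log q))) ^ 2) * (1 + ((j : ℝ) + 1) ^ 2)
        ≤ (4 * ((j + 2) * Real.log y) * r ^ j / y) * (1 + ((j : ℝ) + 1) ^ 2) :=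
          mul_le_mul_of_nonneg_right (hb.trans h7) (by positivity)
      _ = (4 * ((j : ℝ) + 2) * (1 + ((j : ℝ) + 1) ^ 2) * r ^ j) * (Real.log y / y) := by ring
  refine (Finset.sum_le_sum hblock).trans ?_
  rw [← Finset.sum_mul, mul_div_assoc]
  exact mul_le_mul_of_nonneg_right (hs.sum_le_tsum _ (fun j _ => hpos j)) (by positivity)

end Pool.LDV
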