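import Pool.Agent.Work.MP_e9b29d_ld.Interface

set_option autoImplicit false

namespace Pool.LDV

open Finset Filter MeasureTheory Pool.Agent.Work.MP_e9b29d_nt

theorem upp_ylog {M y : ℝ} (hM : 0 ≤ M) (hy : 3 ≤ y) (hyM : (2 * M) ^ 2 ≤ y) :
    M * Real.log y ≤ y := by
  have hy0 : 0 < y := by linarith
  have h1 : Real.log y ≤ 2 * Real.sqrt y := by
    have b1 : Real.log (Real.sqrt y) = Real.log y / 2 := Real.log_sqrt hy0.le
    have b2 := Real.log_le_sub_one_of_pos (Real.sqrt_pos.mpr hy0)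
    linarith
  have h2 : 2 * M ≤ Real.sqrt y := Real.le_sqrt_of_sq_le hyM
  have h3 : Real.sqrt y * Real.sqrt y = y := Real.mul_self_sqrt hy0.le
  have h4 : 0 ≤ Real.sqrt y := Real.sqrt_nonneg y
  nlinarith

theorem upp_pow {g : ℝ} (hg : 0 < g) (j : ℕ) : 1 + j * (g * Real.log 2) ≤ (2 : ℝ) ^ (j * g) := by
  have h1 : (2 : ℝ) ^ (j * g) = Real.exp (j * (g * Real.log 2)) := by
    rw [Real.rpow_def_of_pos (by norm_num)]
    congr 1
    ring
  rw [h1]
  have := Real.add_one_le_exp (j * (g * Real.log 2))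
  linarith

theorem p_UPP (hBCK : Stmt_BCK) : Stmt_UPP := by
  classical
  intro a b θ κ ha hab hb hθ hθ1 hκ0 hκ
  obtain ⟨Cpp, hCpp0, hpp⟩ := prime_powers_bound ha
  obtain ⟨Csp, hCsp0, hsp⟩ := small_primes_bound hb
  obtain ⟨c, y₀, hc, hy₀, hB⟩ := hBCK a b θ κ ha hab hb.le hθ hθ1 hκ
  set g : ℝ := (2 * a - 1) / 4 with hg
  have hg0 : 0 < g := by rw [hg]; linarith
  set r : ℝ := (2 : ℝ) ^ (-((2 * a - 1) / 4)) with hr
  have hr0 : 0 < r := by positivity
  have hr1 : r < 1 := Real.rpow_lt_one_of_one_lt_of_neg (by norm_num) (by linarith)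
  have hr1' : 0 < 1 - r := by linarith
  set C : ℝ := 3 + Cpp + Csp + 2 / (1 - r) with hC
  have hc1i : 0 ≤ 2 / (1 - r) := by positivity
  have hl2 : 0 < Real.log 2 := Real.log_pos (by norm_num)
  have hl3 : 0 < Real.log 3 := Real.log_pos (by norm_num)
  set c₂ : ℝ := min (c / 4) 1 with hc2
  have hc20 : 0 < c₂ := lt_min (by positivity) one_pos
  have hc2a : c₂ ≤ c / 4 := min_le_left _ _
  have hc2b : c₂ ≤ 1 := min_le_right _ _
  set M : ℝ := max (Real.log 2 / (c * (g * Real.log 2))) (4 * Real.log 3 / c) with hM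
  have hM0 : 0 ≤ M := le_max_of_le_right (by positivity)
  refine ⟨C, c₂, max y₀ ((2 * M) ^ 2), by rw [hC]; linarith, hc20, le_max_of_le_left hy₀, ?_⟩
  have hlog : Filter.Tendsto (fun T : ℕ => Real.log (T : ℝ)) Filter.atTop Filter.atTop :=
    Real.tendsto_log_atTop.comp tendsto_natCast_atTop_atTop
  have hloglog : Filter.Tendsto (fun T : ℕ => Real.log (Real.log (T : ℝ))) Filter.atTop
      Filter.atTop :=
    Real.tendsto_log_atTop.comp hlog
  filter_upwards [hB, Filter.eventually_ge_atTop 3,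
    hlog.eventually_ge_atTop 3, hloglog.eventually_ge_atTop 1,
    hlog.eventually (ev_log_pow (4 / c) 2 (ρ := 1) one_pos)]
    with T hT1 hT2 hT3 hT4 hT6
  intro H hH y hy hyT
  have hyy0 : y₀ ≤ y := (le_max_left _ _).trans hy
  have hyM : (2 * M) ^ 2 ≤ y := (le_max_right _ _).trans hy
  have hy3 : 3 ≤ y := hy₀.trans hyy0
  set ℓ : ℝ := Real.log T with hℓ
  set m2 : ℝ := Real.log ℓ with hm2
  have hℓ0 : 0 < ℓ := by linarith
  have hm20 : 0 < m2 := by linarith
  have hT0 : (0 : ℝ) < T := by exact_mod_cast (by omega : 0 < T)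
  have hT1' : (1 : ℝ) ≤ T := by exact_mod_cast (by omega : 1 ≤ T)
  have hyℓ : y ≤ ℓ := by
    have : c₂ * ℓ ≤ 1 * ℓ := mul_le_mul_of_nonneg_right hc2b hℓ0.le
    linarith
  have hy1 : 1 ≤ y := by linarith
  have hy0 : 0 < y := by linarith
  have hlogy0 : 0 < Real.log y := Real.log_pos (by linarith)
  have hlogym : Real.log y ≤ m2 := Real.log_le_log hy0 hyℓ
  -- consequences of `y` large
  have hyl := upp_ylog hM0 hy3 hyM
  have hM1 : Real.log 2 ≤ c * (g * Real.log 2) * y / Real.log y := by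
    rw [le_div_iff₀ hlogy0]
    have h1 : Real.log 2 / (c * (g * Real.log 2)) * Real.log y ≤ y :=
      (mul_le_mul_of_nonneg_right (le_max_left _ _) hlogy0.le).trans hyl
    have h2 : 0 < c * (g * Real.log 2) := by positivity
    rw [div_mul_eq_mul_div, div_le_iff₀ h2] at h1
    linarith
  have hM2 : Real.log 3 ≤ c / 4 * y / Real.log y := by
    rw [le_div_iff₀ hlogy0]
    have h1 : 4 * Real.log 3 / c * Real.log y ≤ y :=
      (mul_le_mul_of_nonneg_right (le_max_right _ _) hlogy0.le).trans hyl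
    rw [div_mul_eq_mul_div, div_le_iff₀ hc] at h1
    linarith
  set X : ℕ := ⌊(T : ℝ) ^ κ⌋₊ with hX
  have hXle : (X : ℝ) ≤ (T : ℝ) ^ κ := Nat.floor_le (by positivity)
  set J : ℕ := ⌊2 * ℓ⌋₊ with hJ
  have hJle : (J : ℝ) ≤ 2 * ℓ := Nat.floor_le (by linarith)
  have hJ2 : (T : ℝ) ≤ 2 ^ J := by
    have h1 : 2 * ℓ - 1 < J := by
      have := Nat.lt_floor_add_one (2 * ℓ)
      rw [← hJ] at this
      linarith
    have h2 : (2 : ℝ) ^ J = Real.exp (J * Real.log 2) := by
      rw [← Real.log_pow, Real.exp_log (by positivity)]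
    rw [h2, ← Real.exp_log hT0, ← hℓ]
    apply Real.exp_le_exp.2
    have h3 : (0.69 : ℝ) ≤ Real.log 2 := by have := Real.log_two_gt_d9; linarith
    have h4 : (2 * ℓ - 1) * 0.69 ≤ J * Real.log 2 :=
      mul_le_mul h1.le h3 (by norm_num) (Nat.cast_nonneg J)
    linarith
  have hXJ : (X : ℝ) ≤ 2 ^ J * y := by
    have h1 : (T : ℝ) ^ κ ≤ T := by
      calc (T : ℝ) ^ κ ≤ (T : ℝ) ^ (1 : ℝ) := Real.rpow_le_rpow_of_exponent_le hT1' (by linarith)
        _ = T := Real.rpow_one _
    have h2 : (2 : ℝ) ^ J * 1 ≤ 2 ^ J * y := mul_le_mul_of_nonneg_left hy1 (by positivity)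
    linarith
  have hH0 : (0 : ℝ) ≤ H := Nat.cast_nonneg H
  set bd : ℕ → Finset ℕ := fun j => badP a b (blk X (2 ^ j * y)) y (2 * r ^ j) T (T + H) with hbd
  refine ⟨(range J).biUnion bd, ?_, ?_⟩
  · -- cardinality
    have h1 : (((range J).biUnion bd).card : ℝ) ≤ ∑ j ∈ range J, ((bd j).card : ℝ) := by
      exact_mod_cast Finset.card_biUnion_le
    refine le_trans h1 ?_
    -- the ratio
    set q : ℝ := Real.exp (-(c * (g * Real.log 2) * y / Real.log y)) with hq
    have hq0 : 0 < q := Real.exp_pos _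
    have hq2 : q ≤ 1 / 2 := by
      rw [hq, one_div, ← Real.exp_log (by norm_num : (0 : ℝ) < 2), ← Real.exp_neg,
        Real.exp_log (by norm_num : (0 : ℝ) < 2)]
      exact Real.exp_le_exp.2 (by linarith)
    set E1 : ℝ := Real.exp (-(c * y / Real.log y)) with hE1
    set E2 : ℝ := Real.exp (-(c * ℓ / Real.log y)) with hE2
    have hE10 : 0 < E1 := Real.exp_pos _
    have hE20 : 0 < E2 := Real.exp_pos _
    have h2 : ∀ j ∈ range J, ((bd j).card : ℝ) ≤ H * (E1 * q ^ j + E2) := by
      intro j _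
      refine (hT1 H hH y hyy0 hyℓ j X hXle).trans ?_
      apply mul_le_mul_of_nonneg_left _ hH0
      rcases min_cases (y * (2 : ℝ) ^ (j * g)) ℓ with ⟨hm, _⟩ | ⟨hm, _⟩
      · rw [hm]
        have e1 : E1 * q ^ j = Real.exp (-(c * (y * (1 + j * (g * Real.log 2))) / Real.log y)) := by
          rw [hE1, hq, ← Real.exp_nat_mul, ← Real.exp_add]
          congr 1
          field_simp
          ring
        have e2 : Real.exp (-(c * (y * (2 : ℝ) ^ (j * g)) / Real.log y)) ≤ E1 * q ^ j := by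
          rw [e1]
          apply Real.exp_le_exp.2
          apply neg_le_neg
          apply div_le_div_of_nonneg_right _ hlogy0.le
          apply mul_le_mul_of_nonneg_left _ hc.le
          exact mul_le_mul_of_nonneg_left (upp_pow hg0 j) hy0.le
        linarith
      · rw [hm]
        have : 0 ≤ E1 * q ^ j := by positivity
        linarith
    refine (Finset.sum_le_sum h2).trans ?_
    rw [← Finset.mul_sum]
    apply mul_le_mul_of_nonneg_left _ hH0
    rw [Finset.sum_add_distrib, ← Finset.mul_sum, Finset.sum_const, card_range, nsmul_eq_mul]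
    have h3 : ∑ j ∈ range J, q ^ j ≤ 2 := by
      have h4 : (∑ j ∈ range J, q ^ j) * (1 - q) ≤ 1 := by
        rw [geom_sum_mul_neg]
        have : 0 ≤ q ^ J := by positivity
        linarith
      have h5 : 0 ≤ ∑ j ∈ range J, q ^ j := Finset.sum_nonneg fun _ _ => by positivity
      nlinarith
    -- the second sum
    have h6 : (J : ℝ) * E2 ≤ Real.exp (-(c / 2 * y / Real.log y)) := by
      have e1 : E2 = Real.exp (-(c / 2 * ℓ / Real.log y)) * Real.exp (-(c / 2 * ℓ / Real.log y)) := by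
        rw [hE2, ← Real.exp_add]
        congr 1
        ring
      have e2 : 2 * ℓ * Real.exp (-(c / 2 * ℓ / Real.log y)) ≤ 1 := by
        have e3 : 2 * ℓ = Real.exp (Real.log 2 + m2) := by
          rw [Real.exp_add, Real.exp_log (by norm_num), hm2, Real.exp_log hℓ0]
        rw [e3, ← Real.exp_add, Real.exp_le_one_iff]
        have e4 : Real.log 2 + m2 ≤ 2 * m2 := by
          have := Real.log_two_lt_d9
          linarith
        have e5 : 2 * m2 ≤ c / 2 * ℓ / Real.log y := by
          rw [le_div_iff₀ hlogy0]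
          rw [Real.rpow_one, div_mul_eq_mul_div, div_le_iff₀ hc] at hT6
          have e6 : 2 * m2 * Real.log y ≤ 2 * m2 * m2 :=
            mul_le_mul_of_nonneg_left hlogym (by linarith)
          nlinarith
        linarith
      have e7 : Real.exp (-(c / 2 * ℓ / Real.log y)) ≤ Real.exp (-(c / 2 * y / Real.log y)) := by
        apply Real.exp_le_exp.2
        apply neg_le_neg
        apply div_le_div_of_nonneg_right _ hlogy0.le
        exact mul_le_mul_of_nonneg_left hyℓ (by positivity)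
      calc (J : ℝ) * E2 ≤ (2 * ℓ) * E2 := mul_le_mul_of_nonneg_right hJle hE20.le
        _ = (2 * ℓ * Real.exp (-(c / 2 * ℓ / Real.log y))) *
            Real.exp (-(c / 2 * ℓ / Real.log y)) := by rw [e1]; ring
        _ ≤ 1 * Real.exp (-(c / 2 * ℓ / Real.log y)) :=
            mul_le_mul_of_nonneg_right e2 (Real.exp_pos _).le
        _ ≤ _ := by rw [one_mul]; exact e7
    have h7 : E1 ≤ Real.exp (-(c / 2 * y / Real.log y)) := by
      rw [hE1]
      apply Real.exp_le_exp.2
      apply neg_le_neg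
      apply div_le_div_of_nonneg_right _ hlogy0.le
      apply mul_le_mul_of_nonneg_right _ hy0.le
      linarith
    have h8 : 3 * Real.exp (-(c / 2 * y / Real.log y)) ≤ Real.exp (-(c / 4 * y / Real.log y)) := by
      have e1 : Real.exp (-(c / 2 * y / Real.log y)) = Real.exp (-(c / 4 * y / Real.log y)) *
          Real.exp (-(c / 4 * y / Real.log y)) := by
        rw [← Real.exp_add]
        congr 1
        ring
      have e2 : 3 * Real.exp (-(c / 4 * y / Real.log y)) ≤ 1 := by
        have e3 : (3 : ℝ) = Real.exp (Real.log 3) := (Real.exp_log (by norm_num)).symm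
        conv_lhs => rw [e3]
        rw [← Real.exp_add, Real.exp_le_one_iff]
        linarith
      rw [e1, ← mul_assoc]
      have := mul_le_mul_of_nonneg_right e2 (Real.exp_pos (-(c / 4 * y / Real.log y))).le
      linarith
    have h9 : Real.exp (-(c / 4 * y / Real.log y)) ≤ Real.exp (-(c₂ * y / Real.log y)) := by
      apply Real.exp_le_exp.2
      apply neg_le_neg
      apply div_le_div_of_nonneg_right _ hlogy0.le
      exact mul_le_mul_of_nonneg_right hc2a hy0.le
    have h10 : E1 * ∑ j ∈ range J, q ^ j ≤ 2 * Real.exp (-(c / 2 * y / Real.log y)) := by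
      calc E1 * ∑ j ∈ range J, q ^ j ≤ E1 * 2 := mul_le_mul_of_nonneg_left h3 hE10.le
        _ ≤ _ := by linarith
    linarith
  · -- the bound
    intro n hn hnB σ hσ t ht
    have h1 := DD_bound (a := a) (b := b) (by linarith) hpp hsp (X := X) (J := J) hy1 hXJ (t := t) hσ
    refine le_trans h1 ?_
    have h2 : ∑ j ∈ range J, ‖PS (blk X (2 ^ j * y)) y σ t‖ ≤ ∑ j ∈ range J, 2 * r ^ j := by
      apply Finset.sum_le_sum
      intro j hj
      by_contra hcon
      apply hnB
      rw [mem_biUnion]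
      refine ⟨j, hj, ?_⟩
      rw [hbd]
      simp only
      rw [mem_badP]
      exact ⟨hn, σ, hσ, t, ht, not_le.1 hcon⟩
    have h3 : ∑ j ∈ range J, 2 * r ^ j ≤ 2 / (1 - r) := by
      rw [← Finset.mul_sum, le_div_iff₀ hr1', mul_assoc, geom_sum_mul_neg]
      have : 0 ≤ r ^ J := by positivity
      linarith
    have h5 : 1 ≤ y ^ (1 - σ) := Real.one_le_rpow hy1 (by linarith [hσ.2])
    have h6 : Cpp * 1 ≤ Cpp * y ^ (1 - σ) := mul_le_mul_of_nonneg_left h5 hCpp0
    have h9 : y ^ (1 - σ) * ∑ j ∈ range J, ‖PS (blk X (2 ^ j * y)) y σ t‖ ≤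
        y ^ (1 - σ) * (2 / (1 - r)) :=
      mul_le_mul_of_nonneg_left (le_trans h2 h3) (by linarith)
    have e : (C - 1) * y ^ (1 - σ) = 2 * y ^ (1 - σ) + Cpp * y ^ (1 - σ) + Csp * y ^ (1 - σ) +
        y ^ (1 - σ) * (2 / (1 - r)) := by rw [hC]; ring
    rw [e]
    linarith

end Pool.LDV
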