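import Pool.Agent.Work.MP_e9b29d_ld.B_BCK
import Pool.Agent.Work.MP_e9b29d_ld.B_CHL
import Pool.Agent.Work.MP_e9b29d_ld.B_FIN
import Pool.Agent.Work.MP_e9b29d_ld.B_GI
import Pool.Agent.Work.MP_e9b29d_ld.B_LOW
import Pool.Agent.Work.MP_e9b29d_ld.B_MVG
import Pool.Agent.Work.MP_e9b29d_ld.B_PIU
import Pool.Agent.Work.MP_e9b29d_ld.B_PMV
import Pool.Agent.Work.MP_e9b29d_ld.B_PNT
import Pool.Agent.Work.MP_e9b29d_ld.B_RBD
import Pool.Agent.Work.MP_e9b29d_ld.B_RGU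
import Pool.Agent.Work.MP_e9b29d_ld.B_RLO
import Pool.Agent.Work.MP_e9b29d_ld.B_RZU
import Pool.Agent.Work.MP_e9b29d_ld.B_SMI
import Pool.Agent.Work.MP_e9b29d_ld.B_SMJ
import Pool.Agent.Work.MP_e9b29d_ld.B_TLQ
import Pool.Agent.Work.MP_e9b29d_ld.B_UPP

set_option autoImplicit false

namespace Pool.LDV

theorem pmv : Stmt_PMV := p_PMV p_MVG

theorem low : Stmt_LOW :=
  p_LOW (p_RLO pmv) p_RBD p_SMJ (p_SMI (p_RGU pmv) p_RBD p_SMJ p_TLQ)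
    (p_GI (p_RZU pmv p_RBD) p_RBD) p_CHL p_PIU p_PNT

theorem final : Stmt_FIN := p_FIN low (p_UPP p_BCK)

end Pool.LDV
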