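import Pool.Agent.Work.MP_e9b29d_ld.Interface

/-! Block BCK: number of boxes where a block is large. -/

set_option autoImplicit false

namespace Pool.LDV

open Finset Filter MeasureTheory Pool.Agent.Work.MP_e9b29d_nt

lemma bck_y0 {θ g c : ℝ} (hθ : 0 < θ) (hg : 0 < g) (hc : 0 < c) : ∃ y₀ : ℝ, 3 ≤ y₀ ∧ ∀ y : ℝ, y₀ ≤ y →
    8 * (Real.log 2 + Real.log y) ≤ θ * y ∧ 8 ≤ θ * g * y ∧
      24 * (1 + y) ^ 4 ≤ Real.exp (c * (y / Real.log y)) := by
  have h1 := ev_log_pow (16 / θ) 1 (ρ := 1) one_pos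
  have h2 := ev_log_pow (12 / c) 2 (ρ := 1) one_pos
  obtain ⟨y₀, h⟩ := Filter.eventually_atTop.1
    (h1.and (h2.and ((Filter.eventually_ge_atTop (3 : ℝ)).and (Filter.eventually_ge_atTop (8 / (θ * g))))))
  refine ⟨max y₀ 3, le_max_right _ _, ?_⟩
  intro y hy
  obtain ⟨e1, e2, e3, e4⟩ := h y (le_trans (le_max_left _ _) hy)
  rw [Real.rpow_one] at e1 e2
  rw [pow_one] at e1
  have hy0 : 0 < y := by linarith
  have hlogy : 1 ≤ Real.log y := by
    rw [Real.le_log_iff_exp_le hy0]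
    have := Real.exp_one_lt_d9
    linarith
  have hl2 : Real.log 2 ≤ Real.log y := Real.log_le_log (by norm_num) (by linarith)
  refine ⟨?_, ?_, ?_⟩
  · have f : θ * (16 / θ * Real.log y) = 16 * Real.log y := by field_simp
    have f2 := mul_le_mul_of_nonneg_left e1 hθ.le
    rw [f] at f2
    linarith
  · rw [div_le_iff₀ (by positivity)] at e4
    linarith
  · have f1 : 12 * Real.log y ≤ c * (y / Real.log y) := by
      have f2 : c * (y / Real.log y) = c * y / Real.log y := by ring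
      rw [f2, le_div_iff₀ (by linarith)]
      have f3 : c * (12 / c * Real.log y ^ 2) = 12 * Real.log y * Real.log y := by field_simp
      have f4 := mul_le_mul_of_nonneg_left e2 hc.le
      rw [f3] at f4
      exact f4
    refine le_trans ?_ (Real.exp_le_exp.2 f1)
    have f5 : Real.exp (12 * Real.log y) = y ^ 12 := by
      have : (12 : ℝ) * Real.log y = ((12 : ℕ) : ℝ) * Real.log y := by norm_num
      rw [this, ← Real.log_pow, Real.exp_log (by positivity)]
    rw [f5]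
    have g1 : (1 + y) ^ 4 ≤ (2 * y) ^ 4 := pow_le_pow_left₀ (by linarith) (by linarith) 4
    have g2 : (3 : ℝ) ^ 8 ≤ y ^ 8 := pow_le_pow_left₀ (by norm_num) e3 8
    have g3 : y ^ 12 = y ^ 8 * y ^ 4 := by ring
    have g4 : (3 : ℝ) ^ 8 * y ^ 4 ≤ y ^ 8 * y ^ 4 := mul_le_mul_of_nonneg_right g2 (by positivity)
    have g5 : (2 * y) ^ 4 = 16 * y ^ 4 := by ring
    have g6 : 0 ≤ y ^ 4 := by positivity
    rw [g3]
    norm_num at g4
    linarith

theorem p_BCK : Stmt_BCK := by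
  intro a b θ κ ha hab hb hθ hθ1 hκ
  obtain ⟨g, hg⟩ : ∃ g, g = (2 * a - 1) / 4 := ⟨_, rfl⟩
  have hg0 : 0 < g := by rw [hg]; linarith
  have hg1 : g ≤ 1 := by rw [hg]; linarith
  have hl2 : 0 < Real.log 2 := Real.log_pos (by norm_num)
  have hl21 : Real.log 2 ≤ 1 := by have := Real.log_two_lt_d9; linarith
  obtain ⟨c, hc⟩ : ∃ c, c = θ * g * Real.log 2 / 16 := ⟨_, rfl⟩
  have hc0 : 0 < c := by rw [hc]; positivity
  obtain ⟨y₀, hy₀3, hy₀⟩ := bck_y0 hθ hg0 hc0
  refine ⟨c, y₀, hc0, hy₀3, ?_⟩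
  have hlog : Filter.Tendsto (fun T : ℕ => Real.log (T : ℝ)) Filter.atTop Filter.atTop :=
    Real.tendsto_log_atTop.comp tendsto_natCast_atTop_atTop
  filter_upwards [ev_log_pow_nat 16 1 (ρ := 3 * θ / 4) (by positivity), Filter.eventually_ge_atTop 3,
    hlog.eventually_ge_atTop (16 / θ), hlog.eventually_ge_atTop 3]
    with T hT1 hT2 hT3 hT5
  intro H hH y hy hyT j X hX
  rw [← hg]
  obtain ⟨ℓ, hℓ⟩ : ∃ ℓ : ℝ, ℓ = Real.log T := ⟨_, rfl⟩
  rw [← hℓ] at hT1 hT3 hT5 hyT ⊢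
  have hℓ0 : 0 < ℓ := by linarith
  have hT0 : (0 : ℝ) < T := by exact_mod_cast (by omega : 0 < T)
  have hT1' : (1 : ℝ) ≤ T := by exact_mod_cast (by omega : 1 ≤ T)
  have hy3 : 3 ≤ y := by linarith
  have hy0 : 0 < y := by linarith
  obtain ⟨Y, hY⟩ : ∃ Y : ℝ, Y = 2 ^ j * y := ⟨_, rfl⟩
  rw [← hY]
  have h2j : (1 : ℝ) ≤ 2 ^ j := one_le_pow₀ (by norm_num)
  have hYY : y ≤ Y := by
    rw [hY]
    exact le_mul_of_one_le_left hy0.le h2j
  have hYpos : 0 < Y := by linarith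
  obtain ⟨r, hr⟩ : ∃ r : ℝ, r = (2 : ℝ) ^ (-g) := ⟨_, rfl⟩
  rw [← hr]
  have hr0 : 0 < r := by rw [hr]; positivity
  have hrj : 0 < r ^ j := by positivity
  have hH0 : (0 : ℝ) ≤ H := Nat.cast_nonneg H
  have hj0 : (0 : ℝ) ≤ j := Nat.cast_nonneg j
  obtain ⟨Z, hZ⟩ : ∃ Z : ℝ, Z = min (y * (2 : ℝ) ^ ((j : ℝ) * g)) ℓ := ⟨_, rfl⟩
  rw [← hZ]
  by_cases hbig : (X : ℝ) ≤ Y
  · have hemp : blk X Y = ∅ := by
      rw [Finset.eq_empty_iff_forall_notMem]
      intro p hp
      rw [mem_blk, mem_Ioc] at hp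
      have : (p : ℝ) ≤ X := by exact_mod_cast hp.1.2
      linarith [hp.2.2.1]
    rw [hemp, badP_empty (by positivity), card_empty]
    simp only [Nat.cast_zero]
    positivity
  push Not at hbig
  have hlogy : 1 ≤ Real.log y := by
    rw [Real.le_log_iff_exp_le hy0]
    have := Real.exp_one_lt_d9
    linarith
  -- facts about Z
  have hpw : (2 : ℝ) ^ ((j : ℝ) * g) * r ^ j = 1 := by
    rw [hr, ← Real.rpow_natCast, ← Real.rpow_mul (by norm_num), ← Real.rpow_add (by norm_num)]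
    have : (j : ℝ) * g + -g * j = 0 := by ring
    rw [this, Real.rpow_zero]
  have hpw1 : 1 + (j : ℝ) * g * Real.log 2 ≤ (2 : ℝ) ^ ((j : ℝ) * g) := by
    rw [Real.rpow_def_of_pos (by norm_num)]
    have := Real.add_one_le_exp (Real.log 2 * ((j : ℝ) * g))
    linarith
  have hZℓ : Z ≤ ℓ := by rw [hZ]; exact min_le_right _ _
  have hZy2 : Z ≤ y * (2 : ℝ) ^ ((j : ℝ) * g) := by rw [hZ]; exact min_le_left _ _
  have hyZ : y ≤ Z := by
    rw [hZ]
    apply le_min _ hyT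
    have h0 : 0 ≤ (j : ℝ) * g * Real.log 2 := by positivity
    exact le_mul_of_one_le_right hy0.le (by linarith)
  have hZ0 : 0 < Z := by linarith
  -- log (2Y)
  obtain ⟨lg, hlg⟩ : ∃ lg : ℝ, lg = Real.log (2 * Y) := ⟨_, rfl⟩
  have hlg0 : 0 < lg := by rw [hlg]; exact Real.log_pos (by linarith)
  have hlgT : lg ≤ θ / 8 * ℓ := by
    have h1 : Real.log (2 * Y) ≤ Real.log (2 * (T : ℝ) ^ κ) :=
      Real.log_le_log (by positivity) (by linarith)
    have e0 : Real.log (2 * (T : ℝ) ^ κ) = Real.log 2 + κ * ℓ := by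
      rw [Real.log_mul (by norm_num) (by positivity), Real.log_rpow hT0, hℓ]
    rw [e0] at h1
    have h3 : κ * ℓ ≤ θ / 16 * ℓ := mul_le_mul_of_nonneg_right hκ hℓ0.le
    have h4 : 1 ≤ θ / 16 * ℓ := by
      have : 16 / θ * (θ / 16) = 1 := by field_simp
      rw [← this, mul_comm]
      exact mul_le_mul_of_nonneg_left hT3 (by positivity)
    rw [hlg]
    linarith
  have hlge : lg = Real.log 2 + j * Real.log 2 + Real.log y := by
    rw [hlg, hY, Real.log_mul (by norm_num) (by positivity),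
      Real.log_mul (by positivity) (by positivity), Real.log_pow]
    ring
  obtain ⟨q1, q2, -⟩ := hy₀ y hy
  have hlgZ : 8 * lg ≤ θ * Z := by
    have h1 : 8 * lg ≤ θ * (y * (2 : ℝ) ^ ((j : ℝ) * g)) := by
      have h2 : θ * (y * (1 + (j : ℝ) * g * Real.log 2)) ≤ θ * (y * (2 : ℝ) ^ ((j : ℝ) * g)) := by
        apply mul_le_mul_of_nonneg_left _ hθ.le
        exact mul_le_mul_of_nonneg_left hpw1 hy0.le
      refine le_trans ?_ h2
      have h3 : 8 * ((j : ℝ) * Real.log 2) ≤ θ * g * y * ((j : ℝ) * Real.log 2) :=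
        mul_le_mul_of_nonneg_right q2 (by positivity)
      have h4 : θ * (y * (1 + (j : ℝ) * g * Real.log 2)) = θ * y + θ * g * y * ((j : ℝ) * Real.log 2) := by ring
      rw [h4, hlge]
      linarith
    rw [hZ]
    rcases min_choice (y * (2 : ℝ) ^ ((j : ℝ) * g)) ℓ with h | h
    · rw [h]; exact h1
    · rw [h]; linarith
  obtain ⟨x, hx⟩ : ∃ x : ℝ, x = θ * Z / (4 * lg) := ⟨_, rfl⟩
  have hx2 : 2 ≤ x := by
    rw [hx, le_div_iff₀ (by positivity)]
    linarith
  obtain ⟨k, hk⟩ : ∃ k : ℕ, k = ⌊x⌋₊ := ⟨_, rfl⟩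
  have hkx : (k : ℝ) ≤ x := by rw [hk]; exact Nat.floor_le (by linarith)
  have hkx2 : x / 2 ≤ k := by
    have := Nat.lt_floor_add_one x
    rw [← hk] at this
    linarith
  have hk1 : 1 ≤ k := by
    have : (1 : ℝ) ≤ k := by linarith
    exact_mod_cast this
  have hklg : (k : ℝ) * lg ≤ θ / 4 * Z := by
    have h1 : (k : ℝ) * lg ≤ x * lg := mul_le_mul_of_nonneg_right hkx hlg0.le
    have h2 : x * lg = θ / 4 * Z := by rw [hx]; field_simp
    linarith
  have hk2 : θ * Z / (8 * lg) ≤ k := by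
    have : θ * Z / (8 * lg) = x / 2 := by rw [hx]; field_simp; norm_num
    rw [this]
    exact hkx2
  have h2Yk : (2 * Y) ^ k ≤ Real.exp (θ / 4 * Z) := by
    have : (2 * Y) ^ k = Real.exp (k * lg) := by
      rw [hlg, ← Real.log_pow, Real.exp_log (by positivity)]
    rw [this]
    exact Real.exp_le_exp.2 hklg
  obtain ⟨M', hM'⟩ : ∃ M' : ℕ, M' = ⌈Real.exp (θ / 4 * Z)⌉₊ := ⟨_, rfl⟩
  have hM'1 : Real.exp (θ / 4 * Z) ≤ M' := by rw [hM']; exact Nat.le_ceil _
  have hE1 : (1 : ℝ) ≤ Real.exp (θ / 4 * Z) := Real.one_le_exp (by positivity)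
  have hM'2 : (M' : ℝ) ≤ 2 * Real.exp (θ / 4 * Z) := by
    have := Nat.ceil_lt_add_one (a := Real.exp (θ / 4 * Z)) (by positivity)
    rw [← hM'] at this
    linarith
  have hM'3 : 1 ≤ M' := by
    have : (1 : ℝ) ≤ M' := by linarith
    exact_mod_cast this
  have hM'L : Real.log M' ≤ 1 + Z := by
    have h1 : Real.log M' ≤ Real.log (2 * Real.exp (θ / 4 * Z)) :=
      Real.log_le_log (by exact_mod_cast hM'3) hM'2
    rw [Real.log_mul (by norm_num) (by positivity), Real.log_exp] at h1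
    have h2 : θ / 4 * Z ≤ 1 * Z := mul_le_mul_of_nonneg_right (by linarith) hZ0.le
    linarith
  have hTθ : 4 * (M' : ℝ) * (1 + Real.log M') ≤ (((T + H : ℕ) : ℝ) - T) := by
    have e : (((T + H : ℕ) : ℝ) - T) = H := by push_cast; ring
    rw [e]
    refine le_trans ?_ hH
    have hEZ : Real.exp (θ / 4 * Z) ≤ (T : ℝ) ^ (θ / 4) := by
      rw [Real.rpow_def_of_pos hT0, ← hℓ]
      apply Real.exp_le_exp.2
      have := mul_le_mul_of_nonneg_left hZℓ (by positivity : (0 : ℝ) ≤ θ / 4)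
      linarith
    have h1 : 4 * (M' : ℝ) * (1 + Real.log M') ≤ 4 * (2 * (T : ℝ) ^ (θ / 4)) * (1 + (1 + ℓ)) := by
      apply mul_le_mul _ (by linarith) _ (by positivity)
      · linarith
      · have : 0 ≤ Real.log (M' : ℝ) := Real.log_nonneg (by exact_mod_cast hM'3)
        linarith
    refine le_trans h1 ?_
    rw [pow_one] at hT1
    have h3 : (T : ℝ) ^ θ = (T : ℝ) ^ (θ / 4) * (T : ℝ) ^ (3 * θ / 4) := by
      rw [← Real.rpow_add hT0]
      congr 1
      ring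
    rw [h3]
    calc 4 * (2 * (T : ℝ) ^ (θ / 4)) * (1 + (1 + ℓ)) = (T : ℝ) ^ (θ / 4) * (8 * (2 + ℓ)) := by ring
      _ ≤ (T : ℝ) ^ (θ / 4) * (T : ℝ) ^ (3 * θ / 4) := by
          apply mul_le_mul_of_nonneg_left _ (by positivity)
          linarith
  have hraw := block_count_raw (X := X) (by linarith : (0 : ℝ) ≤ a) hab (by linarith) (k := k) (M := M')
    (A := T) (B := T + H) hk1 (by omega) (Y := Y) (Y0 := y) (L := 1 + Z) (lam := 2 * r ^ j) (by linarith) hYY
    (by linarith) (by positivity) (le_trans h2Yk hM'1) hM'3 hM'L hTθ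
  have e1 : (((T + H : ℕ) : ℝ) - T) = H := by push_cast; ring
  rw [e1] at hraw
  obtain ⟨Bc, hBc⟩ : ∃ Bc : ℝ, Bc = 4 * Real.log (2 * Y) * (Y / y) ^ (1 - 2 * a) / y := ⟨_, rfl⟩
  rw [← hBc] at hraw
  obtain ⟨cnt, hcnt⟩ : ∃ cnt : ℝ, cnt = ((badP a b (blk X Y) y (2 * r ^ j) T (T + H)).card : ℝ) := ⟨_, rfl⟩
  rw [← hcnt] at hraw ⊢
  have hYr : (Y / y) ^ (1 - 2 * a) = (r ^ j) ^ 4 := by
    have h1 : Y / y = 2 ^ j := by rw [hY]; field_simp
    rw [h1, hr, ← Real.rpow_natCast, ← Real.rpow_natCast, ← Real.rpow_natCast,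
      ← Real.rpow_mul (by positivity), ← Real.rpow_mul (by positivity), ← Real.rpow_mul (by positivity)]
    congr 1
    rw [hg]
    push_cast
    ring
  have hkB : (k : ℝ) * Bc ≤ (2 * r ^ j) ^ 2 * (r ^ j / 4) := by
    rw [hBc, hYr, ← hlg]
    have h1 : (k : ℝ) * (4 * lg * (r ^ j) ^ 4 / y) = (k * lg) * (4 * (r ^ j) ^ 4 / y) := by ring
    rw [h1]
    calc (k * lg) * (4 * (r ^ j) ^ 4 / y) ≤ (θ / 4 * Z) * (4 * (r ^ j) ^ 4 / y) :=
          mul_le_mul_of_nonneg_right hklg (by positivity)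
      _ ≤ (1 / 4 * (y * (2 : ℝ) ^ ((j : ℝ) * g))) * (4 * (r ^ j) ^ 4 / y) := by
          apply mul_le_mul_of_nonneg_right _ (by positivity)
          apply mul_le_mul (by linarith) hZy2 hZ0.le (by norm_num)
      _ = ((2 : ℝ) ^ ((j : ℝ) * g) * r ^ j) * (r ^ j) ^ 3 := by field_simp
      _ = (2 * r ^ j) ^ 2 * (r ^ j / 4) := by rw [hpw]; ring
  have hBc0 : 0 ≤ Bc := by
    rw [hBc, ← hlg]
    positivity
  have hcnt1 : cnt ≤ 24 * (1 + Z) ^ 4 * H * (r ^ j / 4) ^ k := by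
    have h1 : cnt * ((2 * r ^ j) ^ 2) ^ k ≤ (24 * (1 + Z) ^ 4 * H * (r ^ j / 4) ^ k) * ((2 * r ^ j) ^ 2) ^ k := by
      refine le_trans hraw ?_
      calc 24 * (1 + Z) ^ 4 * H * (k * Bc) ^ k
          ≤ 24 * (1 + Z) ^ 4 * H * ((2 * r ^ j) ^ 2 * (r ^ j / 4)) ^ k := by
            apply mul_le_mul_of_nonneg_left _ (by positivity)
            exact pow_le_pow_left₀ (mul_nonneg (Nat.cast_nonneg k) hBc0) hkB k
        _ = _ := by rw [mul_pow]; ring
    exact le_of_mul_le_mul_right h1 (by positivity)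
  refine le_trans hcnt1 ?_
  -- the exponential bound
  have hlogr : Real.log r = -(g * Real.log 2) := by
    rw [hr, Real.log_rpow (by norm_num)]; ring
  have hexp : (r ^ j / 4) ^ k = Real.exp (-(k * (j * (g * Real.log 2) + 2 * Real.log 2))) := by
    rw [← Real.exp_log (show 0 < (r ^ j / 4) ^ k by positivity)]
    congr 1
    have h4 : Real.log 4 = 2 * Real.log 2 := by
      have : (4 : ℝ) = 2 ^ 2 := by norm_num
      rw [this, Real.log_pow]; norm_num
    rw [Real.log_pow, Real.log_div (by positivity) (by norm_num), Real.log_pow, hlogr, h4]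
    ring
  have hlgu : lg ≤ (j + 2) * Real.log y := by
    rw [hlge]
    have h1 : Real.log 2 ≤ Real.log y := by linarith
    have h2 : (j : ℝ) * Real.log 2 ≤ j * Real.log y := mul_le_mul_of_nonneg_left h1 hj0
    linarith
  have hmain : 2 * (c * (Z / Real.log y)) ≤ k * (j * (g * Real.log 2) + 2 * Real.log 2) := by
    have h1 : (j + 2) * (g * Real.log 2) ≤ j * (g * Real.log 2) + 2 * Real.log 2 := by
      have : g * Real.log 2 ≤ 1 * Real.log 2 := mul_le_mul_of_nonneg_right hg1 hl2.le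
      linarith
    have h2 : θ * Z / (8 * ((j + 2) * Real.log y)) ≤ k := by
      refine le_trans ?_ hk2
      apply div_le_div_of_nonneg_left (by positivity) (by positivity)
      linarith
    have h3 : θ * Z / (8 * ((j + 2) * Real.log y)) * ((j + 2) * (g * Real.log 2)) ≤
        k * (j * (g * Real.log 2) + 2 * Real.log 2) :=
      mul_le_mul h2 h1 (by positivity) (by positivity)
    have h4 : θ * Z / (8 * ((j + 2) * Real.log y)) * ((j + 2) * (g * Real.log 2)) = 2 * (c * (Z / Real.log y)) := by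
      rw [hc]
      have : (0 : ℝ) < j + 2 := by linarith
      have : (0 : ℝ) < Real.log y := by linarith
      field_simp
      norm_num
    linarith
  have hZy : c * (Z / Real.log Z) ≤ c * (Z / Real.log y) := by
    apply mul_le_mul_of_nonneg_left _ hc0.le
    apply div_le_div_of_nonneg_left hZ0.le (by linarith)
    exact Real.log_le_log hy0 hyZ
  have h24 : 24 * (1 + Z) ^ 4 ≤ Real.exp (c * (Z / Real.log y)) :=
    le_trans (hy₀ Z (by linarith)).2.2 (Real.exp_le_exp.2 hZy)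
  rw [hexp]
  have h5 : Real.exp (-(k * (j * (g * Real.log 2) + 2 * Real.log 2))) ≤ Real.exp (-(2 * (c * (Z / Real.log y)))) :=
    Real.exp_le_exp.2 (by linarith)
  calc 24 * (1 + Z) ^ 4 * H * Real.exp (-(k * (j * (g * Real.log 2) + 2 * Real.log 2)))
      ≤ Real.exp (c * (Z / Real.log y)) * H * Real.exp (-(2 * (c * (Z / Real.log y)))) := by
        apply mul_le_mul _ h5 (by positivity) (by positivity)
        exact mul_le_mul_of_nonneg_right h24 hH0
    _ = H * (Real.exp (c * (Z / Real.log y)) * Real.exp (-(2 * (c * (Z / Real.log y))))) := by ring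
    _ = H * Real.exp (-(c * Z / Real.log y)) := by
        rw [← Real.exp_add]
        congr 2
        ring

end Pool.LDV
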