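import Pool.Agent.Work.MP_e9b29d_ld.Interface

/-! # Block RGU (helper87): the resonator times a Dirichlet polynomial -/

set_option autoImplicit false

namespace Pool.LDV

open Finset Filter MeasureTheory Pool.Agent.Work.MP_e9b29d_nt

theorem p_RGU (hPMV : Stmt_PMV) : Stmt_RGU := by
  intro w P Q K M b A B hw hP hK hQ hM hAB
  obtain ⟨K', rfl⟩ : ∃ K', K = K' + 1 := ⟨K - 1, by omega⟩
  have h := hPMV P Q K' M (fun _ j => w ^ j) b A B hP hQ (by
    intro q hq
    refine le_trans ?_ (hM q hq)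
    apply Nat.mul_le_mul_left
    apply Finset.prod_le_prod'
    intro p hp
    exact Nat.pow_le_pow_right (hP p hp).pos (by omega)) hAB
  have e1 : ∀ t : ℝ, (∏ p ∈ P, ∑ j ∈ range (K' + 1), w ^ j * ee p t ^ j) =
      RR w P (K' + 1) t := by
    intro t
    unfold RR
    apply Finset.prod_congr rfl
    intro p _
    apply Finset.sum_congr rfl
    intro j _
    rw [mul_pow]
  have e2 : ∏ p ∈ P, ∑ j ∈ range (K' + 1), ‖w ^ j‖ ^ 2 = ((K' + 1 : ℕ) : ℝ) ^ P.card := by
    rw [← Finset.prod_const]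
    apply Finset.prod_congr rfl
    intro p _
    simp [hw]
  have e3 : ∀ t : ℝ, ‖(∏ p ∈ P, ∑ j ∈ range (K' + 1), w ^ j * ee p t ^ j) *
      ∑ q ∈ Q, b q * ee q t‖ ^ 2 =
      ‖RR w P (K' + 1) t‖ ^ 2 * ‖∑ q ∈ Q, b q * ee q t‖ ^ 2 := by
    intro t
    rw [e1, norm_mul, mul_pow]
  simp only [e3] at h
  rw [e2] at h
  have h1 := (abs_le.1 h).2
  linarith

end Pool.LDV
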